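import Mathlib
import Pool.Agent.N964.MX.K1
import Pool.Agent.N964.MX.I1
import Pool.Agent.Y767.WA.LocalH
import Pool.Agent.H370R2.Rect

set_option autoImplicit false

/-!
# Sums of the coefficients of `1 / L` for L-functions of degree `k`: the statements of the parts (project GX)

`F` is an L-function of degree `k` in the upper half plane, `a` the coefficients of `-F'/F`,
`b` the coefficients of `1 / F`.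
-/

namespace Pool.Agent.N964.GX

open Complex MeasureTheory
open Pool.Agent.N964.MX (Dd kk ww Pl cc th cp wt kq)
open Pool.Agent.Y23 (Lg)
open Pool.Agent.W354 (LogC)
open Y767.WH (GoodH)

/-- an L-function of degree `k` in the upper half plane with the Ramanujan bound and the Riemann hypothesis -/
structure LR (k : ℕ) (A : ℝ) (lc : ℝ → ℝ) (F : ℂ → ℂ) (a : ℕ → ℂ) : Prop where
  hk : 1 ≤ k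
  hA : 1 ≤ A
  hlc : LogC lc
  good : GoodH k A lc F a
  ram : ∀ n : ℕ, ‖a n‖ ≤ k * ArithmeticFunction.vonMangoldt n
  rh : ∀ s : ℂ, 1 / 2 < s.re → 1 ≤ s.im → F s ≠ 0

/-- the kernel of the explicit formula; on the line `re w = 0` it is real and nonpositive -/
noncomputable def Dk (l s : ℝ) (w : ℂ) : ℂ :=
  2 * s / (s ^ 2 - w ^ 2) * ((Complex.cosh (l * w) - 1) / ((Real.cosh (l * s) - 1 : ℝ) : ℂ))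

/-- the sum over the prime powers with the weight `w` of `log n` -/
noncomputable def PSa (a : ℕ → ℂ) (l t : ℝ) (w : ℝ → ℝ) : ℝ :=
  (∑ n ∈ Finset.Icc 1 ⌊Real.exp l⌋₊, ((w (Real.log n) / Real.sqrt n : ℝ) : ℂ) * a n * (n : ℂ) ^ (-(t : ℂ) * I)).re

/-- the multiplier at `p` -/
noncomputable def al (a : ℕ → ℂ) (p : ℕ) : ℂ := a p / (Real.log p : ℂ)

/-- the prime polynomial -/
noncomputable def PA (a : ℕ → ℂ) (l δ t : ℝ) : ℂ :=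
  ∑ p ∈ Pl l, (((cc l δ p : ℝ) : ℂ) * al a p) * (p : ℂ) ^ (-(t : ℂ) * I)

/-- the piece `i` of the prime polynomial -/
noncomputable def Pa (a : ℕ → ℂ) (n : ℕ) (m l δ t : ℝ) (i : ℕ) : ℂ :=
  ∑ p ∈ Pl (th n l m i), (((cp n m l δ i p : ℝ) : ℂ) * al a p) * (p : ℂ) ^ (-(t : ℂ) * I)

/-- the size of the mean for degree `k` -/
noncomputable def Xk (k : ℕ) (δ : ℝ) : ℝ := 1 / (δ ^ k * Real.log (1 / δ) ^ (k + 1))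

/-- GX/A0: the residue theorem for `F' / F` times a function with a simple pole at `p` -/
def S_res : Prop := ∀ (F h : ℂ → ℂ) (a b c d : ℝ) (p : ℂ), a < b → c < d →
  AnalyticOnNhd ℂ F (Set.Icc a b ×ℂ Set.Icc c d) → AnalyticOnNhd ℂ h (Set.Icc a b ×ℂ Set.Icc c d) →
  (∀ s ∈ Set.Icc a b ×ℂ Set.Icc c d, F s = 0 → s ∈ Set.Ioo a b ×ℂ Set.Ioo c d) →
  p ∈ Set.Ioo a b ×ℂ Set.Ioo c d → F p ≠ 0 →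
  (Set.Finite {s | s ∈ Set.Ioo a b ×ℂ Set.Ioo c d ∧ F s = 0}) ∧
  H370.RI a b c d (fun s => deriv F s / F s * (h s / (s - p))) =
    2 * Real.pi * I * (deriv F p / F p * h p +
      ∑ᶠ s ∈ {s | s ∈ Set.Ioo a b ×ℂ Set.Ioo c d ∧ F s = 0}, (H370.mult F s : ℂ) * (h s / (s - p)))

/-- GX/A1: the explicit formula with contour integrals -/
def S_ct : Prop := ∀ (k : ℕ) (A : ℝ) (lc : ℝ → ℝ) (F : ℂ → ℂ) (a : ℕ → ℂ), LR k A lc F a →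
  ∃ C : ℝ, 3 ≤ C ∧ ∀ t s l : ℝ, C ≤ t → 0 < s → s ≤ 1 → 1 ≤ l → Real.exp (8 * l) ≤ t →
  ∃ V1 V2 : ℝ, V1 ∈ Set.Icc (t / 2 - 1) (t / 2) ∧ V2 ∈ Set.Icc (3 * t / 2) (3 * t / 2 + 1) ∧
  2 * (deriv F (1 / 2 + s + t * I) / F (1 / 2 + s + t * I)).re ≤
    1 / (2 * Real.pi) * (∫ v in V1..V2, (k * lc v + A) * ‖Dk l s (((v - t : ℝ) : ℂ) * I)‖)
    - 1 / Real.pi * (∫ v in V1..V2, deriv F (7 / 4 + v * I) / F (7 / 4 + v * I) *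
        Dk l s (5 / 4 + ((v - t : ℝ) : ℂ) * I)).re + C / (l ^ 2 * s)

/-- GX/A2: the gamma factor -/
def S_arch : Prop := ∀ (k : ℕ) (A : ℝ) (lc : ℝ → ℝ), LogC lc → 0 ≤ A →
  ∃ C : ℝ, 0 < C ∧ ∀ t s l V1 V2 : ℝ, 4 ≤ t → 0 < s → s ≤ 1 → 1 ≤ l →
  V1 ∈ Set.Icc (t / 2 - 1) (t / 2) → V2 ∈ Set.Icc (3 * t / 2) (3 * t / 2 + 1) →
  1 / (2 * Real.pi) * (∫ v in V1..V2, (k * lc v + A) * ‖Dk l s (((v - t : ℝ) : ℂ) * I)‖) ≤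
    (k * Lg t + C) * (Real.sinh (l * s) / (Real.cosh (l * s) - 1) - 1)

/-- GX/A3: the primes -/
def S_prim : Prop := ∀ (k : ℕ) (A : ℝ) (lc : ℝ → ℝ) (F : ℂ → ℂ) (a : ℕ → ℂ), LR k A lc F a →
  ∃ C : ℝ, 0 < C ∧ ∀ t s l V1 V2 : ℝ, 4 ≤ t → 0 < s → s ≤ 1 → 1 ≤ l → Real.exp (8 * l) ≤ t →
  V1 ∈ Set.Icc (t / 2 - 1) (t / 2) → V2 ∈ Set.Icc (3 * t / 2) (3 * t / 2 + 1) →
  |1 / Real.pi * (∫ v in V1..V2, deriv F (7 / 4 + v * I) / F (7 / 4 + v * I) *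
        Dk l s (5 / 4 + ((v - t : ℝ) : ℂ) * I)).re - 2 * PSa a l t (kk l s)| ≤ C / (l ^ 2 * s)

/-- the bound for `1 / F` near the critical line -/
def S_pt : Prop := ∀ (k : ℕ) (A : ℝ) (lc : ℝ → ℝ) (F : ℂ → ℂ) (a : ℕ → ℂ), LR k A lc F a →
  ∃ C : ℝ, 3 ≤ C ∧ ∀ t δ l : ℝ, C ≤ t → 0 < δ → δ ≤ 1 → 1 ≤ l → Real.exp (8 * l) ≤ t →
  ‖F (1 / 2 + δ + t * I)‖⁻¹ ≤
    Real.exp (k * Lg t / l * Dd l δ + C * (1 + Real.log l + Dd l δ) + ‖PA a l δ t‖)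

/-- GX/B: high moments of Dirichlet polynomials over the primes with complex coefficients -/
def S_momc : Prop := ∃ C : ℝ, 0 < C ∧ ∀ (X k : ℕ) (c : ℕ → ℂ) (T : ℝ), 1 ≤ T → (X : ℝ) ^ k ≤ T →
  ∫ t in (-T)..T, ‖∑ p ∈ (Finset.range (X + 1)).filter Nat.Prime, c p * (p : ℂ) ^ (-(t : ℂ) * I)‖ ^ (2 * k) ≤
    C * T * k.factorial * (∑ p ∈ (Finset.range (X + 1)).filter Nat.Prime, ‖c p‖ ^ 2) ^ k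

/-- GX/C1: the pieces add up to the polynomial -/
def S_splita : Prop := ∀ (a : ℕ → ℂ) (n : ℕ) (m l δ t : ℝ), 0 < l → 0 < m → (2 : ℝ) ^ n - 1 ≤ m / 2 →
  ‖PA a l δ t‖ ≤ ∑ i ∈ Finset.range (n + 1), ‖Pa a n m l δ t i‖

/-- GX/C2: the square sums of the pieces -/
def S_vark : Prop := ∀ κ : ℝ, 1 ≤ κ → ∃ B : ℝ, 1 ≤ B ∧ ∀ (n i : ℕ) (m l δ : ℝ), 1 ≤ l → 0 < δ → δ ≤ 1 → 1 ≤ m →
  (2 : ℝ) ^ n - 1 ≤ m / 2 → m ≤ 4 * 2 ^ n → m ≤ 4 * l → Real.log l ≤ κ * m → Dd l δ ≤ κ * m → i ≤ n →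
  ∑ p ∈ Pl (th n l m i), cp n m l δ i p ^ 2 ≤ B * 8 ^ i / m

/-- GX/D: the terms of the sum over the levels and the pieces -/
def S_termk : Prop := ∀ (k : ℕ) (B : ℝ), 1 ≤ k → 1 ≤ B → ∃ C δ0 : ℝ, 0 < C ∧ 0 < δ0 ∧ δ0 ≤ 1 / 4 ∧
  ∀ (δ τ : ℝ) (V i : ℕ), 0 < δ → δ ≤ δ0 → Real.exp 2 ≤ τ → τ ≤ 1 / δ ^ (k + 2) →
  1 / (δ ^ k * Real.log (1 / δ) ^ (k + 2)) ≤ (V : ℝ) → (V : ℝ) ≤ τ / Real.log τ →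
  (2 : ℝ) ^ i - 1 ≤ Real.log (1 / δ) / 2 →
  Real.exp (k * ((V : ℝ) + 1) * Real.log (1 + ((V : ℝ) + 1) / (τ * δ)) + 5 * ((V : ℝ) + 1)) *
    (B * 13 ^ i / (Real.log (1 / δ) * V)) ^ (kq (Real.log (1 / δ)) V i) ≤
  Real.exp (C * Xk k δ)

/-- the first negative moment in the upper half plane -/
def S_meank : Prop := ∀ (k : ℕ) (A : ℝ) (lc : ℝ → ℝ) (F : ℂ → ℂ) (a : ℕ → ℂ), LR k A lc F a →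
  ∃ C δ0 : ℝ, 3 ≤ C ∧ 0 < δ0 ∧ δ0 ≤ 1 / 4 ∧ ∀ T δ : ℝ, C ≤ T → 0 < δ → δ ≤ δ0 → Lg T ≤ 1 / δ ^ (k + 2) →
  ∫ t in C..T, ‖F (1 / 2 + δ + t * I)‖⁻¹ ≤ T * Real.exp (C * Xk k δ)

/-- GX/T: very large heights -/
def S_tail : Prop := S_pt → ∀ (k : ℕ) (A : ℝ) (lc : ℝ → ℝ) (F : ℂ → ℂ) (a : ℕ → ℂ), LR k A lc F a →
  ∃ δ1 : ℝ, 0 < δ1 ∧ δ1 ≤ 1 / 4 ∧ ∀ δ t : ℝ, 0 < δ → δ ≤ δ1 → 3 ≤ t → 1 / δ ^ (k + 2) ≤ Lg t →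
  ‖F (1 / 2 + δ + t * I)‖⁻¹ ≤ t ^ (1 - 1 / ((k : ℝ) + 2))

/-- an L-function of degree `k` with a pole of order at most `r` at `1`: `F` in the upper half plane and its
conjugate `F'`, and the coefficients `b` of `1 / F` -/
structure LL (k r : ℕ) (A : ℝ) (lc : ℝ → ℝ) (F F' E : ℂ → ℂ) (a a' b : ℕ → ℂ) : Prop where
  hk : 1 ≤ k
  hA : 1 ≤ A
  hlc : LogC lc
  good : GoodH k A lc F a
  good' : GoodH k A lc F' a'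
  ram : ∀ n : ℕ, ‖a n‖ ≤ k * ArithmeticFunction.vonMangoldt n
  ram' : ∀ n : ℕ, ‖a' n‖ ≤ k * ArithmeticFunction.vonMangoldt n
  hconj : ∀ s : ℂ, F' s = (starRingEnd ℂ) (F ((starRingEnd ℂ) s))
  ent : Differentiable ℂ E
  hE : ∀ s : ℂ, s ≠ 1 → E s = (s - 1) ^ r * F s
  h1 : r = 0 ∨ E 1 ≠ 0
  sb : ∀ s : ℂ, 1 < s.re → LSeriesSummable b s
  hb : ∀ s : ℂ, 1 < s.re → F s * LSeries b s = 1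

/-- the reciprocal -/
noncomputable def fi (r : ℕ) (E : ℂ → ℂ) (s : ℂ) : ℂ := (s - 1) ^ r / E s

/-- GX/G: small heights -/
def S_low : Prop := ∀ (r : ℕ) (E : ℂ → ℂ), Differentiable ℂ E → (∀ s : ℂ, 1 / 2 < s.re → E s ≠ 0) →
  ∀ R : ℝ, ∃ C : ℝ, 0 < C ∧ ∀ t δ : ℝ, |t| ≤ R → 0 < δ → δ ≤ 1 →
  ‖fi r E (1 / 2 + δ + t * I)‖ ≤ Real.exp (C * (1 + Real.log (1 / δ)))

/-- GX/J: the coefficients of the reciprocal -/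
def S_bb : Prop := ∀ (k r : ℕ) (A : ℝ) (lc : ℝ → ℝ) (F F' E : ℂ → ℂ) (a a' b : ℕ → ℂ), LL k r A lc F F' E a a' b →
  ∃ C : ℝ, 0 < C ∧ ∀ n : ℕ, 1 ≤ n → ‖b n‖ ≤ C * (n : ℝ) ^ (1 / 4 : ℝ)

/-- GX/H: polynomial growth of the reciprocal -/
def S_gr : Prop := S_pt → S_low → ∀ (k r : ℕ) (A : ℝ) (lc : ℝ → ℝ) (F F' E : ℂ → ℂ) (a a' b : ℕ → ℂ),
  LL k r A lc F F' E a a' b → (∀ s : ℂ, 1 / 2 < s.re → E s ≠ 0) → ∀ δ : ℝ, 0 < δ → δ ≤ 1 / 4 →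
  ∃ C : ℝ, 0 < C ∧ ∀ s : ℂ, 1 / 2 + δ ≤ s.re → ‖fi r E s‖ ≤ C * (1 + |s.im|) ^ (1 / 2 : ℝ)

/-- GX/F: the smoothed Perron formula -/
def S_per : Prop := ∀ (b : ℕ → ℂ) (G : ℂ → ℂ) (B : ℝ), 0 < B → (∀ n : ℕ, 1 ≤ n → ‖b n‖ ≤ B * (n : ℝ) ^ (1 / 4 : ℝ)) →
  DifferentiableOn ℂ G {s : ℂ | 1 / 2 < s.re} → (∀ s : ℂ, 3 / 2 < s.re → G s = LSeries b s) →
  (∀ δ : ℝ, 0 < δ → δ ≤ 1 / 4 → ∃ C : ℝ, 0 < C ∧ ∀ s : ℂ, 1 / 2 + δ ≤ s.re → ‖G s‖ ≤ C * (1 + |s.im|) ^ (1 / 2 : ℝ)) →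
  ∃ C : ℝ, 0 < C ∧ ∀ δ y : ℝ, 0 < δ → δ ≤ 1 / 4 → 1 ≤ y →
    Integrable (fun t : ℝ => ‖G (1 / 2 + δ + t * I)‖ * wt y t) ∧
    ‖∑ n ∈ Finset.Icc 1 ⌊y⌋₊, b n‖ ≤ C * Real.sqrt y +
      C * y ^ (1 / 2 + δ) * ∫ t : ℝ, ‖G (1 / 2 + δ + t * I)‖ * wt y t

/-- the exponent in the final bound -/
noncomputable def Qk (k : ℕ) (x : ℝ) : ℝ := Real.log x ^ ((k : ℝ) / (k + 1)) / Real.log (Real.log x)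

/-- GX/K: the mean with the weight of Perron's formula -/
def S_fin : Prop := ∀ (k : ℕ) (g : ℝ → ℝ) (K δ0 : ℝ), 1 ≤ k → 3 ≤ K → 0 < δ0 → δ0 ≤ 1 / 4 →
  ∀ M : ℝ → ℝ → ℝ, (∀ δ t : ℝ, 0 ≤ M δ t) → (∀ δ : ℝ, 0 < δ → δ ≤ 1 / 4 → Continuous (M δ)) →
  (∀ δ y : ℝ, 0 < δ → δ ≤ 1 / 4 → 1 ≤ y → Integrable (fun t : ℝ => M δ t * wt y t) ∧
    g y ≤ K * Real.sqrt y + K * y ^ (1 / 2 + δ) * ∫ t : ℝ, M δ t * wt y t) →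
  (∀ y : ℝ, 1 ≤ y → g y ≤ K * y ^ 2) →
  (∀ δ t : ℝ, 0 < δ → δ ≤ δ0 → |t| ≤ K → M δ t ≤ Real.exp (K * (1 + Real.log (1 / δ)))) →
  (∀ δ T : ℝ, 0 < δ → δ ≤ δ0 → K ≤ T → Lg T ≤ 1 / δ ^ (k + 2) →
    (∫ t in K..T, M δ t) ≤ T * Real.exp (K * Xk k δ) ∧ (∫ t in (-T)..(-K), M δ t) ≤ T * Real.exp (K * Xk k δ)) →
  (∀ δ t : ℝ, 0 < δ → δ ≤ δ0 → 3 ≤ |t| → 1 / δ ^ (k + 2) ≤ Lg t → M δ t ≤ |t| ^ (1 - 1 / ((k : ℝ) + 2))) →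
  ∃ C : ℝ, 0 < C ∧ ∀ x : ℝ, 3 ≤ x → g x ≤ Real.sqrt x * Real.exp (C * Qk k x)

/-- the direct part -/
def S_dir : Prop := ∀ (k r : ℕ) (A : ℝ) (lc : ℝ → ℝ) (F F' E : ℂ → ℂ) (a a' b : ℕ → ℂ), LL k r A lc F F' E a a' b →
  (∀ s : ℂ, 1 / 2 < s.re → E s ≠ 0) →
  ∃ C : ℝ, 0 < C ∧ ∀ x : ℝ, 3 ≤ x → ‖∑ n ∈ Finset.Icc 1 ⌊x⌋₊, b n‖ ≤ Real.sqrt x * Real.exp (C * Qk k x)

/-- GX/I: the converse -/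
def S_cv : Prop := ∀ (k r : ℕ) (A : ℝ) (lc : ℝ → ℝ) (F F' E : ℂ → ℂ) (a a' b : ℕ → ℂ), LL k r A lc F F' E a a' b →
  (∃ C : ℝ, ∀ x : ℝ, 3 ≤ x → ‖∑ n ∈ Finset.Icc 1 ⌊x⌋₊, b n‖ ≤ Real.sqrt x * Real.exp (C * Qk k x)) →
  ∀ s : ℂ, 1 / 2 < s.re → E s ≠ 0

end Pool.Agent.N964.GX
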