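import Mathlib
import Pool.Agent.N964.GX.Stm

set_option autoImplicit false

/-!
# Project GX: instances of `LL` (statements)
-/

namespace Pool.Agent.N964.GX

open Complex MeasureTheory
open Pool.Agent.W354 (LogC)
open Y767.WH (GoodH)

/-- `b` is the inverse of `lam` for Dirichlet convolution -/
def IsInv (lam b : ℕ → ℂ) : Prop :=
  ∀ n : ℕ, 1 ≤ n → ∑ d ∈ n.divisors, lam d * b (n / d) = if n = 1 then 1 else 0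

/-- GX/Q0: the inverse of the coefficients of an L-function with the Ramanujan bound -/
def S_inv : Prop := ∀ (k : ℕ) (A : ℝ) (lc : ℝ → ℝ) (F : ℂ → ℂ) (a lam b : ℕ → ℂ), 1 ≤ k → GoodH k A lc F a →
  (∀ n : ℕ, ‖a n‖ ≤ k * ArithmeticFunction.vonMangoldt n) → lam 1 = 1 →
  (∀ s : ℂ, 1 < s.re → LSeriesSummable lam s) → (∀ s : ℂ, 1 < s.re → F s = LSeries lam s) → IsInv lam b →
  (∀ s : ℂ, 1 < s.re → LSeriesSummable b s) ∧ ∀ s : ℂ, 1 < s.re → F s * LSeries b s = 1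

/-- GX/Q0: the inverse exists -/
def S_invex : Prop := ∀ lam : ℕ → ℂ, lam 1 = 1 → ∃ b : ℕ → ℂ, b 0 = 0 ∧ IsInv lam b

/-- GX/Q2: products -/
def S_mul : Prop := ∀ (k1 r1 : ℕ) (A1 : ℝ) (lc1 : ℝ → ℝ) (F1 F1' E1 : ℂ → ℂ) (a1 a1' b1 : ℕ → ℂ)
  (k2 r2 : ℕ) (A2 : ℝ) (lc2 : ℝ → ℝ) (F2 F2' E2 : ℂ → ℂ) (a2 a2' b2 : ℕ → ℂ),
  LL k1 r1 A1 lc1 F1 F1' E1 a1 a1' b1 → LL k2 r2 A2 lc2 F2 F2' E2 a2 a2' b2 →
  ((r1 = 0 ∧ r2 = 0) ∨ (E1 1 ≠ 0 ∧ E2 1 ≠ 0)) →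
  ∃ (A : ℝ) (lc : ℝ → ℝ) (b : ℕ → ℂ), LL (k1 + k2) (r1 + r2) A lc (fun s => F1 s * F2 s) (fun s => F1' s * F2' s)
    (fun s => E1 s * E2 s) (fun n => a1 n + a2 n) (fun n => a1' n + a2' n) b

end Pool.Agent.N964.GX
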