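import Mathlib
import Pool.Agent.N964.GX.Stm2
import Pool.Agent.Y773.HG.Defs

set_option autoImplicit false

/-!
# Project GX: ray class characters (statement)
-/

namespace Pool.Agent.N964.GX

open Complex MeasureTheory NumberField
open Pool.Agent.W354 (LogC)
open Y767.WH (GoodH)

/-- the coefficients of `L(s, ψ)` -/
noncomputable def coI {K : Type} [Field K] [NumberField K] (ψ : Ideal (𝓞 K) →*₀ ℂ) (n : ℕ) : ℂ :=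
  ∑ᶠ 𝔞 ∈ {𝔞 : Ideal (𝓞 K) | Ideal.absNorm 𝔞 = n}, ψ 𝔞

/-- GX/Q3: primitive ray class characters of a number field -/
def S_ray : Prop := ∀ (K : Type) [Field K] [NumberField K] (𝔣 : Ideal (𝓞 K)) (ψ : Ideal (𝓞 K) →*₀ ℂ), 𝔣 ≠ ⊤ →
  Pool.Agent.Y773.G.IsPrimChar K 𝔣 ψ →
  ∃ (A : ℝ) (lc : ℝ → ℝ) (F F' : ℂ → ℂ) (a a' b : ℕ → ℂ), LL (Module.finrank ℚ K) 0 A lc F F' F a a' b ∧
    (∀ s : ℂ, 1 < s.re → F s = Pool.Agent.Y773.LI ψ s) ∧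
    (∀ s : ℂ, 1 < s.re → LSeriesSummable (coI ψ) s) ∧ (∀ s : ℂ, 1 < s.re → F s = LSeries (coI ψ) s) ∧
    IsInv (coI ψ) b ∧ (∀ s : ℂ, 1 ≤ s.re → F s ≠ 0) ∧
    ∀ s : ℂ, 0 < s.re → s.re < 1 → F s = 0 → F (1 - (starRingEnd ℂ) s) = 0

end Pool.Agent.N964.GX
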