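import Mathlib
import Pool.Agent.N964.GX.Stm
import Pool.Agent.N964.MX.K2
import Pool.Agent.N99.MXD

set_option autoImplicit false

/-!
# Project GX: the levels with several pieces
-/

namespace Pool.Agent.N964.GX

open Complex MeasureTheory
open Pool.Agent.N964.MX (Dd kk ww Pl cc th cp wt kq mem_Pl Pl_mono th_le th_self g_nonneg g_le_half norm_ppow Dd_nonneg Dd_le
  ell_ge Lg_mono log_mem pow_two_ge_one)
open Pool.Agent.Y23 (Lg)
open Pool.Agent.W354 (LogC)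
open Y767.WH (GoodH)

/-- the data used below -/
structure Dat (k : ℕ) (C : ℝ) (F : ℂ → ℂ) (a : ℕ → ℂ) : Prop where
  hk : 1 ≤ k
  pos : 3 ≤ C
  main : ∀ t δ l : ℝ, C ≤ t → 0 < δ → δ ≤ 1 → 1 ≤ l → Real.exp (8 * l) ≤ t →
    ‖F (1 / 2 + δ + t * I)‖⁻¹ ≤ Real.exp (k * Lg t / l * Dd l δ + C * (1 + Real.log l + Dd l δ) + ‖PA a l δ t‖)
  wnn : ∀ l δ : ℝ, 1 ≤ l → 0 < δ → δ ≤ 1 → ∀ u : ℝ, 0 < u → u ≤ l → 0 ≤ ww l δ u
  one : ∀ l δ : ℝ, 1 ≤ l → 0 < δ → δ ≤ 1 → ∑ p ∈ Pl l, cc l δ p ≤ C * Real.exp (l / 2) * (1 + Dd l δ)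
  mom : ∀ (X k : ℕ) (c : ℕ → ℂ) (T : ℝ), 1 ≤ T → (X : ℝ) ^ k ≤ T →
    ∫ t in (-T)..T, ‖∑ p ∈ (Finset.range (X + 1)).filter Nat.Prime, c p * (p : ℂ) ^ (-(t : ℂ) * I)‖ ^ (2 * k) ≤
      C * T * k.factorial * (∑ p ∈ (Finset.range (X + 1)).filter Nat.Prime, ‖c p‖ ^ 2) ^ k
  ala : ∀ p : ℕ, p.Prime → ‖al a p‖ ≤ k
  cont : ∀ δ : ℝ, 0 < δ → ContinuousOn (fun t : ℝ => ‖F (1 / 2 + δ + t * I)‖⁻¹) (Set.Ici 1)

lemma dat_of (h1 : S_pt) (h2 : MX.S_coef) (h3 : S_momc) {k : ℕ} {A : ℝ} {lc : ℝ → ℝ} {F : ℂ → ℂ} {a : ℕ → ℂ}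
    (h : LR k A lc F a) : ∃ C : ℝ, Dat k C F a := by
  obtain ⟨C1, hC1, H1⟩ := h1 k A lc F a h
  obtain ⟨C2, hC2, H2⟩ := h2
  obtain ⟨C3, hC3, H3⟩ := h3
  refine ⟨C1 + C2 + C3, ⟨h.hk, by linarith, fun t δ l ht hδ hδ1 hl hlt => ?_, fun l δ hl hδ hδ1 u hu hul =>
    ((H2 l δ hl hδ hδ1).1 u hu hul).1, fun l δ hl hδ hδ1 => ?_, fun X k c T hT hX => ?_, fun p hp => ?_, fun δ hδ => ?_⟩⟩
  · refine (H1 t δ l (by linarith) hδ hδ1 hl hlt).trans (Real.exp_le_exp.2 ?_)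
    have h5 : 0 ≤ 1 + Real.log l + Dd l δ := by
      have := Real.log_nonneg hl
      have := Dd_nonneg (by linarith : 0 < l) hδ
      linarith
    nlinarith
  · refine (H2 l δ hl hδ hδ1).2.2.1.trans ?_
    have h5 : 0 ≤ Real.exp (l / 2) * (1 + Dd l δ) := by
      have := Dd_nonneg (by linarith : 0 < l) hδ
      positivity
    nlinarith
  · refine (H3 X k c T hT hX).trans ?_
    have h5 : 0 ≤ T * k.factorial * (∑ p ∈ (Finset.range (X + 1)).filter Nat.Prime, ‖c p‖ ^ 2) ^ k := by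
      have : 0 ≤ ∑ p ∈ (Finset.range (X + 1)).filter Nat.Prime, ‖c p‖ ^ 2 :=
        Finset.sum_nonneg fun p _ => sq_nonneg _
      positivity
    calc C3 * T * k.factorial * (∑ p ∈ (Finset.range (X + 1)).filter Nat.Prime, ‖c p‖ ^ 2) ^ k =
        C3 * (T * k.factorial * (∑ p ∈ (Finset.range (X + 1)).filter Nat.Prime, ‖c p‖ ^ 2) ^ k) := by ring
      _ ≤ (C1 + C2 + C3) * (T * k.factorial * (∑ p ∈ (Finset.range (X + 1)).filter Nat.Prime, ‖c p‖ ^ 2) ^ k) := by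
        nlinarith
      _ = _ := by ring
  · unfold al
    have h1 := h.ram p
    rw [ArithmeticFunction.vonMangoldt_apply_prime hp] at h1
    have h2 : 0 < Real.log p := Real.log_pos (by exact_mod_cast hp.one_lt)
    rw [norm_div, Complex.norm_real, Real.norm_eq_abs, abs_of_pos h2, div_le_iff₀ h2]
    exact h1
  · intro t ht
    rw [Set.mem_Ici] at ht
    have hre : (1 / 2 + (δ : ℂ) + t * I).re = 1 / 2 + δ := by simp
    have him : (1 / 2 + (δ : ℂ) + t * I).im = t := by simp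
    have h0 : F (1 / 2 + δ + t * I) ≠ 0 := h.rh _ (by rw [hre]; linarith) (by rw [him]; exact ht)
    have h1 : ContinuousAt F (1 / 2 + δ + t * I) := (h.good.an _ (by rw [him]; linarith)).continuousAt
    have h2 : ContinuousAt (fun t : ℝ => F (1 / 2 + δ + t * I)) t :=
      ContinuousAt.comp (f := fun t : ℝ => (1 / 2 + δ + t * I : ℂ)) (g := F) h1 (by fun_prop)
    exact (h2.norm.inv₀ (norm_ne_zero_iff.2 h0)).continuousWithinAt

/-- the bound at the level `V` -/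
noncomputable def GW (k : ℕ) (C m τ δ : ℝ) (V : ℕ) : ℝ :=
  Real.exp (k * V * Real.log (1 + V / (τ * δ)) + 5 * V + C * m)

/-- the pointwise bound on the good set at the level `V` -/
lemma good_bound {k : ℕ} {C : ℝ} {F : ℂ → ℂ} {a : ℕ → ℂ} (D : Dat k C F a) {T δ t : ℝ} (hT : 5 * C ≤ T) (hδ : 0 < δ)
    (hδ4 : δ ≤ 1 / 4) (h1 : T / 2 ≤ t) (h2 : t ≤ T) {V : ℕ} (hV : 32 ≤ V) (hVt : (V : ℝ) ≤ Lg T)
    (hτ : Real.log (Lg T) ≤ (k + 2) * Real.log (1 / δ)) (hP : ‖PA a (Lg T / V) δ t‖ ≤ 5 * V) :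
    ‖F (1 / 2 + δ + t * I)‖⁻¹ ≤ GW k ((k + 5) * C) (Real.log (1 / δ)) (Lg T) δ V := by
  have hC := D.pos
  set τ := Lg T with hτd
  have hV32 : (32 : ℝ) ≤ V := by exact_mod_cast hV
  have hV0 : (0 : ℝ) < V := by linarith
  have hτ0 : 0 < τ := hV0.trans_le hVt
  have hl1 : 1 ≤ τ / V := by rw [le_div_iff₀ hV0]; linarith
  have hℓ := ell_ge hδ hδ4
  have hT0 : 0 < T := by linarith
  have hLt : Lg t ≤ τ := Lg_mono (by rw [abs_of_nonneg (by linarith)]; exact h2)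
  have hexp : Real.exp (8 * (τ / V)) ≤ t := by
    have h3 : 8 * (τ / V) ≤ τ / 4 := by
      rw [← mul_div_assoc, div_le_div_iff₀ hV0 (by norm_num)]
      nlinarith
    refine (Real.exp_le_exp.2 h3).trans ?_
    have h4 : Real.exp (τ / 4) ^ 4 = 3 + T := by
      rw [← Real.exp_nat_mul]
      have : ((4 : ℕ) : ℝ) * (τ / 4) = τ := by push_cast; ring
      rw [this, hτd]
      unfold Lg
      rw [Real.exp_log (by positivity), abs_of_nonneg hT0.le]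
    have ht : 5 ≤ T / 2 := by linarith
    have h5 : 3 + T ≤ (T / 2) ^ 4 := by
      have h6 : 3 + T ≤ (T / 2) ^ 2 := by nlinarith
      have h7 : 1 ≤ (T / 2) ^ 2 := by nlinarith
      nlinarith
    have h6 : Real.exp (τ / 4) ≤ T / 2 := by
      by_contra hcon
      rw [not_le] at hcon
      have h7 := pow_lt_pow_left₀ hcon (by linarith) (n := 4) (by norm_num)
      rw [h4] at h7
      linarith
    linarith
  have h3 := D.main t δ (τ / V) (by linarith) hδ (by linarith) hl1 hexp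
  refine h3.trans ?_
  unfold GW
  rw [Real.exp_le_exp]
  have eD : Dd (τ / V) δ = Real.log (1 + V / (τ * δ)) := by
    unfold MX.Dd
    congr 2
    field_simp
  have hD0 := Dd_nonneg (by linarith : 0 < τ / V) hδ
  have hD2 := Dd_le hl1 hδ hδ4
  have hlog : Real.log (τ / V) ≤ Real.log τ := by
    refine Real.log_le_log (by positivity) ?_
    rw [div_le_iff₀ hV0]
    nlinarith
  have h4 : k * Lg t / (τ / V) * Dd (τ / V) δ ≤ k * V * Real.log (1 + V / (τ * δ)) := by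
    rw [← eD]
    refine mul_le_mul_of_nonneg_right ?_ hD0
    rw [div_le_iff₀ (by positivity)]
    have : (k : ℝ) * V * (τ / V) = k * τ := by field_simp
    rw [this]
    exact mul_le_mul_of_nonneg_left hLt (Nat.cast_nonneg k)
  have h5 : C * (1 + Real.log (τ / V) + Dd (τ / V) δ) ≤ (k + 5) * C * Real.log (1 / δ) := by
    have : 1 + Real.log (τ / V) + Dd (τ / V) δ ≤ (k + 5) * Real.log (1 / δ) := by linarith
    calc C * (1 + Real.log (τ / V) + Dd (τ / V) δ) ≤ C * ((k + 5) * Real.log (1 / δ)) :=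
          mul_le_mul_of_nonneg_left this (by linarith)
      _ = _ := by ring
  linarith

lemma cc_nonneg {k : ℕ} {C : ℝ} {F : ℂ → ℂ} {a : ℕ → ℂ} (D : Dat k C F a) {l δ : ℝ} (hl : 1 ≤ l) (hδ : 0 < δ) (hδ1 : δ ≤ 1)
    {p : ℕ} (hp : p ∈ Pl l) : 0 ≤ cc l δ p := by
  rw [mem_Pl] at hp
  unfold MX.cc
  have h1 : (1 : ℝ) < p := by exact_mod_cast hp.2.one_lt
  exact mul_nonneg (div_nonneg (Real.log_pos h1).le (Real.sqrt_nonneg _))
    (D.wnn l δ hl hδ hδ1 _ (Real.log_pos h1) (log_mem hp.2.one_lt.le hp.1))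

/-- the trivial bound for a piece -/
lemma Pa_le {k : ℕ} {C : ℝ} {F : ℂ → ℂ} {a : ℕ → ℂ} (D : Dat k C F a) {n i : ℕ} {l m δ t : ℝ} (hl : 1 ≤ l) (hm : 0 < m)
    (hδ : 0 < δ) (hδ1 : δ ≤ 1) (hi : i ≤ n) :
    ‖Pa a n m l δ t i‖ ≤ k * (C * Real.exp (l / 2) * (1 + Dd l δ)) := by
  refine le_trans ?_ (mul_le_mul_of_nonneg_left (D.one l δ hl hδ hδ1) (Nat.cast_nonneg k))
  unfold Pa
  refine (norm_sum_le _ _).trans ?_
  have h1 : ∑ p ∈ Pl (th n l m i), ‖(((cp n m l δ i p : ℝ) : ℂ) * al a p) * (p : ℂ) ^ (-(t : ℂ) * I)‖ ≤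
      ∑ p ∈ Pl (th n l m i), k * cc l δ p := by
    refine Finset.sum_le_sum fun p hp => ?_
    have hp' := Pl_mono (th_le (by linarith) hm hi) hp
    have h0 := cc_nonneg D hl hδ hδ1 hp'
    rw [mem_Pl] at hp
    have ha := D.ala p hp.2
    rw [norm_mul, norm_ppow hp.2.ne_zero, mul_one, norm_mul, Complex.norm_real, Real.norm_eq_abs]
    have h2 : |cp n m l δ i p| ≤ cc l δ p := by
      unfold MX.cp
      split_ifs
      · rw [abs_of_nonneg h0]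
      · rw [abs_zero]; exact h0
    calc |cp n m l δ i p| * ‖al a p‖ ≤ cc l δ p * k := mul_le_mul h2 ha (norm_nonneg _) h0
      _ = _ := mul_comm _ _
  refine h1.trans ?_
  rw [Finset.mul_sum]
  exact Finset.sum_le_sum_of_subset_of_nonneg (Pl_mono (th_le (by linarith) hm hi)) fun p hp _ =>
    mul_nonneg (Nat.cast_nonneg k) (cc_nonneg D hl hδ hδ1 hp)

lemma Pa_cont (a : ℕ → ℂ) (n : ℕ) (m l δ : ℝ) (i : ℕ) : Continuous (fun t : ℝ => Pa a n m l δ t i) := by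
  unfold Pa
  refine continuous_finsetSum _ fun p hp => ?_
  rw [mem_Pl] at hp
  have hp0 : (p : ℂ) ≠ 0 := by exact_mod_cast hp.2.ne_zero
  refine Continuous.mul continuous_const ?_
  refine Continuous.const_cpow (by fun_prop) (Or.inl hp0)

/-- the integral of one term -/
lemma int_term {k : ℕ} {C : ℝ} {F : ℂ → ℂ} {a : ℕ → ℂ} (D : Dat k C F a) {B : ℝ} (hB : 1 ≤ B)
    (hv : ∀ (n i : ℕ) (m l δ : ℝ), 1 ≤ l → 0 < δ → δ ≤ 1 → 1 ≤ m →
      (2 : ℝ) ^ n - 1 ≤ m / 2 → m ≤ 4 * 2 ^ n → m ≤ 4 * l → Real.log l ≤ (k + 2) * m → Dd l δ ≤ (k + 2) * m → i ≤ n →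
      ∑ p ∈ Pl (th n l m i), cp n m l δ i p ^ 2 ≤ B * 8 ^ i / m)
    {T δ m : ℝ} (hT : 3 ≤ T) (hδ : 0 < δ) (hδ4 : δ ≤ 1 / 4) (hm : m = Real.log (1 / δ)) {V n i : ℕ} (hV : 1 ≤ V)
    (hVt : (V : ℝ) ≤ Lg T) (hn1 : (2 : ℝ) ^ n - 1 ≤ m / 2) (hn2 : m ≤ 4 * 2 ^ n) (hml : m ≤ 4 * (Lg T / V))
    (hτ : Real.log (Lg T) ≤ (k + 2) * m) (hi : i ≤ n) :
    ∫ t in (-(3 + T))..(3 + T), (‖Pa a n m (Lg T / V) δ t i‖ / ((4 / 5) ^ i * V)) ^ (2 * kq m V i) ≤
      C * (3 + T) * (2 * (k ^ 2 * B) * 13 ^ i / (m * V)) ^ (kq m V i) := by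
  have hC := D.pos
  set τ := Lg T with hτd
  have hV0 : (0 : ℝ) < V := by exact_mod_cast hV
  have hV1 : (1 : ℝ) ≤ V := by exact_mod_cast hV
  have hτ0 : 0 < τ := hV0.trans_le hVt
  have hl1 : 1 ≤ τ / V := by rw [le_div_iff₀ hV0]; linarith
  have hℓ := ell_ge hδ hδ4
  rw [← hm] at hℓ
  have hm0 : 0 < m := by linarith
  have hk1 : (1 : ℝ) ≤ k := by exact_mod_cast D.hk
  set l := τ / V with hl
  have hexp : Real.exp τ = 3 + T := by
    rw [hτd]; unfold Lg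
    rw [Real.exp_log (by positivity), abs_of_nonneg (by linarith : (0 : ℝ) ≤ T)]
  set g := ((2 : ℝ) ^ i - 1) / m with hg
  have hg0 : 0 ≤ g := g_nonneg i hm0
  have hg1 : g ≤ 1 / 2 := g_le_half hm0 hn1 hi
  set q := kq m V i with hq
  have hq1 : (q : ℝ) ≤ V * (1 + g) := by
    rw [hq]; unfold MX.kq
    push_cast
    have h := Nat.floor_le (show (0 : ℝ) ≤ (V : ℝ) * ((2 ^ i - 1) / m) from mul_nonneg hV0.le hg0)
    rw [← hg] at h
    linarith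
  have hqV : V ≤ q := by rw [hq]; unfold MX.kq; omega
  have hth : th n l m i = l * (1 - g) := th_self l m hi
  have hth0 : 0 ≤ th n l m i := by
    rw [hth]
    have : 0 ≤ 1 - g := by linarith
    positivity
  have hX : ((⌊Real.exp (th n l m i)⌋₊ : ℕ) : ℝ) ^ q ≤ 3 + T := by
    have h1 : ((⌊Real.exp (th n l m i)⌋₊ : ℕ) : ℝ) ≤ Real.exp (th n l m i) := Nat.floor_le (Real.exp_pos _).le
    calc ((⌊Real.exp (th n l m i)⌋₊ : ℕ) : ℝ) ^ q ≤ Real.exp (th n l m i) ^ q := pow_le_pow_left₀ (Nat.cast_nonneg _) h1 q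
      _ = Real.exp (q * th n l m i) := by rw [← Real.exp_nat_mul]
      _ ≤ Real.exp τ := by
        rw [Real.exp_le_exp]
        calc (q : ℝ) * th n l m i ≤ V * (1 + g) * th n l m i := mul_le_mul_of_nonneg_right hq1 hth0
          _ = τ * (1 - g ^ 2) := by
            rw [hth, hl]
            field_simp
            ring
          _ ≤ τ := by nlinarith [sq_nonneg g]
      _ = _ := hexp
  have h1 := D.mom ⌊Real.exp (th n l m i)⌋₊ q (fun p => ((cp n m l δ i p : ℝ) : ℂ) * al a p) (3 + T) (by linarith) hX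
  have hlog : Real.log l ≤ (k + 2) * m := by
    refine le_trans (Real.log_le_log (by positivity) ?_) hτ
    rw [hl, div_le_iff₀ hV0]
    nlinarith
  have hD2 := Dd_le hl1 hδ hδ4
  rw [← hm] at hD2
  have h2 := hv n i m l δ hl1 hδ (by linarith) hℓ hn1 hn2 hml hlog (by nlinarith) hi
  set w := ((4 : ℝ) / 5) ^ i with hw
  have hw0 : 0 < w := by rw [hw]; positivity
  have e1 : ∀ t : ℝ, (‖Pa a n m l δ t i‖ / (w * V)) ^ (2 * q) =
      (1 / (w * V)) ^ (2 * q) * ‖∑ p ∈ (Finset.range (⌊Real.exp (th n l m i)⌋₊ + 1)).filter Nat.Prime,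
        (((cp n m l δ i p : ℝ) : ℂ) * al a p) * (p : ℂ) ^ (-(t : ℂ) * I)‖ ^ (2 * q) := by
    intro t
    rw [div_eq_mul_one_div, mul_pow, mul_comm]
    rfl
  simp_rw [e1]
  rw [intervalIntegral.integral_const_mul]
  have hfac : (q.factorial : ℝ) ≤ (q : ℝ) ^ q := by exact_mod_cast Nat.factorial_le_pow q
  have hq0 : (0 : ℝ) ≤ q := Nat.cast_nonneg q
  have hS0 : 0 ≤ ∑ p ∈ (Finset.range (⌊Real.exp (th n l m i)⌋₊ + 1)).filter Nat.Prime,
      ‖((cp n m l δ i p : ℝ) : ℂ) * al a p‖ ^ 2 := Finset.sum_nonneg fun p _ => sq_nonneg _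
  have h2' : ∑ p ∈ (Finset.range (⌊Real.exp (th n l m i)⌋₊ + 1)).filter Nat.Prime,
      ‖((cp n m l δ i p : ℝ) : ℂ) * al a p‖ ^ 2 ≤ k ^ 2 * B * 8 ^ i / m := by
    have h3 : ∑ p ∈ (Finset.range (⌊Real.exp (th n l m i)⌋₊ + 1)).filter Nat.Prime,
      ‖((cp n m l δ i p : ℝ) : ℂ) * al a p‖ ^ 2 ≤ ∑ p ∈ Pl (th n l m i), k ^ 2 * cp n m l δ i p ^ 2 := by
      refine Finset.sum_le_sum fun p hp => ?_
      have hp2 := (Finset.mem_filter.1 hp).2
      rw [norm_mul, Complex.norm_real, Real.norm_eq_abs, mul_pow, sq_abs, mul_comm]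
      have := D.ala p hp2
      gcongr
    refine h3.trans ?_
    rw [← Finset.mul_sum]
    calc (k : ℝ) ^ 2 * ∑ p ∈ Pl (th n l m i), cp n m l δ i p ^ 2 ≤ k ^ 2 * (B * 8 ^ i / m) := by gcongr
      _ = _ := by ring
  have hbase : (1 / (w * V)) ^ 2 * (q * (k ^ 2 * B * 8 ^ i / m)) ≤ 2 * (k ^ 2 * B) * 13 ^ i / (m * V) := by
    have hw2 : w ^ 2 * 25 ^ i = 16 ^ i := by
      rw [hw, ← pow_mul, mul_comm i 2, pow_mul, ← mul_pow]
      norm_num
    have hk2 : (q : ℝ) ≤ 2 * V := by nlinarith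
    calc (1 / (w * V)) ^ 2 * (q * (k ^ 2 * B * 8 ^ i / m)) ≤ (1 / (w * V)) ^ 2 * (2 * V * (k ^ 2 * B * 8 ^ i / m)) := by gcongr
      _ = 2 * (k ^ 2 * B) * 8 ^ i / (w ^ 2 * (m * V)) := by field_simp
      _ ≤ 2 * (k ^ 2 * B) * 13 ^ i / (m * V) := by
        rw [div_le_div_iff₀ (by positivity) (by positivity)]
        have h8 : (8 : ℝ) ^ i ≤ 13 ^ i * w ^ 2 := by
          -- multiply by 25^i
          have h25 : (0 : ℝ) < 25 ^ i := by positivity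
          refine le_of_mul_le_mul_right ?_ h25
          calc (8 : ℝ) ^ i * 25 ^ i = 200 ^ i := by rw [← mul_pow]; norm_num
            _ ≤ 208 ^ i := by gcongr; norm_num
            _ = 13 ^ i * w ^ 2 * 25 ^ i := by
              rw [mul_assoc, hw2, ← mul_pow]; norm_num
        have hmV : 0 ≤ 2 * (k ^ 2 * B) * (m * V) := by positivity
        calc 2 * (k ^ 2 * B) * 8 ^ i * (m * V) = 2 * (k ^ 2 * B) * (m * V) * 8 ^ i := by ring
          _ ≤ 2 * (k ^ 2 * B) * (m * V) * (13 ^ i * w ^ 2) := mul_le_mul_of_nonneg_left h8 hmV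
          _ = _ := by ring
  have hC0 : 0 ≤ C := by linarith
  calc (1 / (w * V)) ^ (2 * q) * ∫ t in (-(3 + T))..(3 + T), ‖∑ p ∈ (Finset.range (⌊Real.exp (th n l m i)⌋₊ + 1)).filter Nat.Prime,
        (((cp n m l δ i p : ℝ) : ℂ) * al a p) * (p : ℂ) ^ (-(t : ℂ) * I)‖ ^ (2 * q) ≤
      (1 / (w * V)) ^ (2 * q) * (C * (3 + T) * q.factorial *
        (∑ p ∈ (Finset.range (⌊Real.exp (th n l m i)⌋₊ + 1)).filter Nat.Prime, ‖((cp n m l δ i p : ℝ) : ℂ) * al a p‖ ^ 2) ^ q) :=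
        mul_le_mul_of_nonneg_left h1 (by positivity)
    _ ≤ (1 / (w * V)) ^ (2 * q) * (C * (3 + T) * (q : ℝ) ^ q * (k ^ 2 * B * 8 ^ i / m) ^ q) := by
        gcongr
    _ = C * (3 + T) * ((1 / (w * V)) ^ 2 * (q * (k ^ 2 * B * 8 ^ i / m))) ^ q := by
        rw [mul_pow ((1 / (w * V)) ^ 2), mul_pow (q : ℝ), ← pow_mul]; ring
    _ ≤ _ := by
        refine mul_le_mul_of_nonneg_left ?_ (by positivity)
        exact pow_le_pow_left₀ (by positivity) hbase q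

end Pool.Agent.N964.GX
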