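import Mathlib
import Pool.Agent.N964.GX.E1

set_option autoImplicit false

/-!
# Project GX: the mean over a block
-/

namespace Pool.Agent.N964.GX

open Complex MeasureTheory Filter
open Pool.Agent.N964.MX (Dd kk ww Pl cc th cp wt kq mem_Pl Pl_mono th_le th_self g_nonneg g_le_half norm_ppow Dd_nonneg Dd_le
  ell_ge Lg_mono log_mem pow_two_ge_one first_good2 sum_w_le)
open Pool.Agent.Y23 (Lg)
open Pool.Agent.W354 (LogC)
open Y767.WH (GoodH)

lemma pow_le_exp (N : ℕ) (K c : ℝ) (hc : 0 < c) : ∃ m0 : ℝ, ∀ m : ℝ, m0 ≤ m → K * m ^ N ≤ Real.exp (c * m) := by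
  have h := (isLittleO_pow_exp_pos_mul_atTop N hc).const_mul_left K
  obtain ⟨m0, hm0⟩ := eventually_atTop.1 (h.def one_pos)
  refine ⟨m0, fun m hm => ?_⟩
  have h1 := hm0 m hm
  rw [one_mul, Real.norm_eq_abs, Real.norm_eq_abs, Real.abs_exp] at h1
  exact (le_abs_self _).trans h1

lemma m_facts (k : ℕ) (C : ℝ) : ∃ m0 : ℝ, 400 ≤ m0 ∧ ∀ m : ℝ, m0 ≤ m →
    m ^ (k + 2) ≤ Real.exp (m / 2) ∧ 9 * (k * (k + 2) ^ 2 * C) * m ^ 3 ≤ Real.exp (m / 4) := by
  obtain ⟨m1, h1⟩ := pow_le_exp (k + 2) 1 (1 / 2) (by norm_num)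
  obtain ⟨m2, h2⟩ := pow_le_exp 3 (9 * (k * (k + 2) ^ 2 * C)) (1 / 4) (by norm_num)
  refine ⟨max 400 (max m1 m2), le_max_left _ _, fun m hm => ⟨?_, ?_⟩⟩
  · have := h1 m (le_trans (le_trans (le_max_left _ _) (le_max_right _ _)) hm)
    rw [one_mul, one_div_mul_eq_div] at this
    exact this
  · have := h2 m (le_trans (le_trans (le_max_right _ _) (le_max_right _ _)) hm)
    rw [one_div_mul_eq_div] at this
    exact this

lemma Xk_eq {k : ℕ} {δ : ℝ} (hδ : 0 < δ) : Xk k δ = Real.exp (k * Real.log (1 / δ)) / Real.log (1 / δ) ^ (k + 1) := by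
  unfold Xk
  have h : Real.exp (k * Real.log (1 / δ)) = (1 / δ) ^ k := by
    rw [mul_comm, Real.exp_mul, Real.exp_log (by positivity), Real.rpow_natCast]
  rw [h]
  rw [one_div_pow, div_div]

/-- the block bound for small `δ` -/
lemma block {k : ℕ} {C : ℝ} {F : ℂ → ℂ} {a : ℕ → ℂ} (D : Dat k C F a) (hs : S_splita) (hvar : S_vark) (hterm : S_termk) :
    ∃ K δ0 : ℝ, 0 < K ∧ 0 < δ0 ∧ δ0 ≤ 1 / 4 ∧ (∀ m : ℝ, Real.log (1 / δ0) ≤ m → 400 ≤ m ∧ m ^ (k + 2) ≤ Real.exp (m / 2)) ∧
      ∀ T δ : ℝ, 5 * C ≤ T → 0 < δ → δ ≤ δ0 →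
      1 / (δ ^ k * Real.log (1 / δ) ^ (k + 2)) ≤ Lg T → Lg T ≤ 1 / δ ^ (k + 2) →
      ∃ R : ℝ → ℝ, Continuous R ∧ (∀ t, 0 ≤ R t) ∧ (∀ t : ℝ, T / 2 ≤ t → t ≤ T → ‖F (1 / 2 + δ + t * I)‖⁻¹ ≤ R t) ∧
      ∫ t in (-(3 + T))..(3 + T), R t ≤ T * Real.exp (K * Xk k δ) := by
  have hC := D.pos
  have hC0 : 0 < C := by linarith
  have hk1 : (1 : ℝ) ≤ k := by exact_mod_cast D.hk
  have hk0 : (0 : ℝ) < k := by linarith
  obtain ⟨B, hB, hv⟩ := hvar (k + 2) (by linarith)
  obtain ⟨Ct, δt, hCt, hδt0, hδt4, ht⟩ := hterm k (2 * (k ^ 2 * B)) D.hk (by nlinarith [mul_pos hk0 hk0])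
  obtain ⟨m0, hm0400, hmf⟩ := m_facts k C
  set δ0 := min δt (Real.exp (-m0)) with hδ0d
  have hδ00 : 0 < δ0 := lt_min hδt0 (Real.exp_pos _)
  have hmle : m0 ≤ Real.log (1 / δ0) := by
    rw [Real.le_log_iff_exp_le (by positivity), le_div_iff₀ hδ00]
    calc Real.exp m0 * δ0 ≤ Real.exp m0 * Real.exp (-m0) := by
          gcongr
          exact min_le_right _ _
      _ = 1 := by rw [← Real.exp_add]; simp
  refine ⟨Ct + (4 * k + 20) + (2 * k + 15) * C, δ0, by positivity, hδ00, (min_le_left _ _).trans hδt4,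
    fun m hm => ⟨by linarith, (hmf m (by linarith)).1⟩, ?_⟩
  intro T δ hT hδ hδ0 hτ1 hτ2
  have hδt : δ ≤ δt := hδ0.trans (min_le_left _ _)
  have hδ4 : δ ≤ 1 / 4 := hδt.trans hδt4
  set m := Real.log (1 / δ) with hm
  have hmexp : Real.exp m = 1 / δ := by rw [hm, Real.exp_log (by positivity)]
  have hmm0 : m0 ≤ m := hmle.trans (Real.log_le_log (by positivity) (one_div_le_one_div_of_le hδ hδ0))
  obtain ⟨f1, f2⟩ := hmf m hmm0
  have hm400 : 400 ≤ m := by linarith
  have hm0 : 0 < m := by linarith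
  have hT15 : 15 ≤ T := by linarith
  set X := Xk k δ with hX
  set τ := Lg T with hτd
  have hXe : X = Real.exp (k * m) / m ^ (k + 1) := Xk_eq hδ
  have hX3 : 1 / (δ ^ k * m ^ (k + 2)) = X / m := by
    rw [hX]; unfold Xk
    rw [← hm, div_div, mul_assoc, ← pow_succ]
  have hekm : Real.exp m ≤ Real.exp (k * m) := Real.exp_le_exp.2 (by nlinarith)
  have hXm : Real.exp (m / 2) ≤ X / m := by
    rw [hXe, div_div, ← pow_succ, le_div_iff₀ (by positivity)]
    calc Real.exp (m / 2) * m ^ (k + 1 + 1) ≤ Real.exp (m / 2) * Real.exp (m / 2) := by gcongr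
      _ = Real.exp m := by rw [← Real.exp_add]; congr 1; ring
      _ ≤ _ := hekm
  have hexpm : 200 ≤ Real.exp (m / 2) := by
    have := Real.add_one_le_exp (m / 2)
    linarith
  have hXm200 : 200 ≤ X / m := by linarith
  have hmX : m ≤ X := by
    rw [le_div_iff₀ hm0] at hXm200
    nlinarith
  have hX1 : 400 ≤ X := hm400.trans hmX
  have hX0 : 0 < X := by linarith
  have hτe : Real.exp (m / 2) ≤ τ := by
    refine le_trans hXm (le_trans (le_of_eq hX3.symm) hτ1)
  have hτ0 : 0 < τ := (Real.exp_pos _).trans_le hτe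
  have hlτ : m / 2 ≤ Real.log τ := by rw [Real.le_log_iff_exp_le hτ0]; exact hτe
  have hτ3 : τ ≤ Real.exp ((k + 2) * m) := by
    refine hτ2.trans (le_of_eq ?_)
    have h1 : Real.exp ((k + 2) * m) = Real.exp m ^ (k + 2) := by rw [← Real.exp_nat_mul]; push_cast; rfl
    rw [h1, hmexp, one_div_pow]
  have hlτ3 : Real.log τ ≤ (k + 2) * m := by rw [Real.log_le_iff_le_exp hτ0]; exact hτ3
  have hlτ0 : 0 < Real.log τ := by linarith
  have hτe2 : Real.exp 2 ≤ τ := le_trans (Real.exp_le_exp.2 (by linarith)) hτe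
  have he2 : (7 : ℝ) ≤ Real.exp 2 := by
    have h1 : Real.exp 2 = Real.exp 1 * Real.exp 1 := by rw [← Real.exp_add]; norm_num
    have := Real.exp_one_gt_d9
    rw [h1]
    nlinarith
  obtain ⟨n, hn1, hn2⟩ := exists_nat_pow_near (x := m / 2 + 1) (y := 2) (by linarith) (by norm_num)
  have hnA : (2 : ℝ) ^ n - 1 ≤ m / 2 := by linarith
  have hnB : m ≤ 4 * 2 ^ n := by rw [pow_succ] at hn2; linarith
  have hnm : (2 : ℝ) ^ n ≤ m := by linarith
  set Vm := ⌈τ / Real.log τ⌉₊ with hVm
  set Vb := ⌈1 / (δ ^ k * m ^ (k + 2))⌉₊ with hVb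
  have hq0 : 0 < τ / Real.log τ := by positivity
  have hq2 : τ / Real.log τ ≤ τ / 200 := by gcongr; linarith
  have hVm1 : τ / Real.log τ ≤ (Vm : ℝ) := Nat.le_ceil _
  have hVm2 : (Vm : ℝ) < τ / Real.log τ + 1 := Nat.ceil_lt_add_one hq0.le
  have hτ200 : 200 ≤ τ := by linarith
  have hVmτ : (Vm : ℝ) ≤ τ := by linarith
  -- square root of tau
  have hsq : Real.exp (m / 4) ≤ Real.sqrt τ := by
    refine Real.le_sqrt_of_sq_le ?_
    rw [← Real.exp_nat_mul]
    refine le_trans (Real.exp_le_exp.2 ?_) hτe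
    push_cast; linarith
  have hs0 : 0 < Real.sqrt τ := Real.sqrt_pos.2 hτ0
  have hs2 : Real.sqrt τ * Real.sqrt τ = τ := Real.mul_self_sqrt hτ0.le
  have hkk : (1 : ℝ) ≤ k * (k + 2) ^ 2 * C := by
    have h1 : (1 : ℝ) ≤ (k + 2) ^ 2 := by nlinarith
    have h2 : (1 : ℝ) ≤ k * (k + 2) ^ 2 := by nlinarith
    nlinarith
  have hsτ : 9 * (k * (k + 2) ^ 2 * C) * m ^ 3 ≤ Real.sqrt τ := f2.trans hsq
  have hVm32 : (32 : ℝ) ≤ Vm := by
    refine le_trans ?_ hVm1
    rw [le_div_iff₀ hlτ0]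
    have h1 : Real.sqrt τ ≤ τ := by
      have : 1 ≤ Real.sqrt τ := by rw [Real.one_le_sqrt]; linarith
      nlinarith
    refine le_trans ?_ (hsτ.trans h1)
    have h2 : 32 * Real.log τ ≤ 32 * ((k + 2) * m) := by linarith
    refine h2.trans ?_
    have h3 : (k : ℝ) + 2 ≤ k * (k + 2) ^ 2 * C := by
      have h4 : (k : ℝ) + 2 ≤ (k + 2) ^ 2 := by nlinarith
      have h5 : ((k : ℝ) + 2) ^ 2 ≤ k * (k + 2) ^ 2 := by nlinarith [sq_nonneg ((k : ℝ) + 2)]
      have h6 : (k : ℝ) * (k + 2) ^ 2 ≤ k * (k + 2) ^ 2 * C := by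
        have : 0 ≤ (k : ℝ) * (k + 2) ^ 2 := by positivity
        nlinarith
      linarith
    have h4 : 32 * m ≤ 9 * m ^ 3 := by
      have : m ^ 3 = m * m ^ 2 := by ring
      nlinarith [sq_nonneg m]
    calc 32 * ((k + 2) * m) = (k + 2) * (32 * m) := by ring
      _ ≤ (k * (k + 2) ^ 2 * C) * (9 * m ^ 3) := mul_le_mul h3 h4 (by positivity) (by positivity)
      _ = _ := by ring
  have hVb1 : 1 / (δ ^ k * m ^ (k + 2)) ≤ (Vb : ℝ) := Nat.le_ceil _
  have hVb32 : (32 : ℝ) ≤ Vb := by rw [hX3] at hVb1; linarith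
  have hVb2 : (Vb : ℝ) ≤ 2 * (X / m) := by
    have := Nat.ceil_lt_add_one (a := 1 / (δ ^ k * m ^ (k + 2))) (by rw [hX3]; linarith)
    rw [← hVb, hX3] at this
    linarith
  set V0 := min Vb Vm with hV0
  have hV032 : 32 ≤ V0 := le_min (by exact_mod_cast hVb32) (by exact_mod_cast hVm32)
  have hle : V0 ≤ Vm := min_le_right _ _
  obtain ⟨N, hN⟩ := Nat.exists_eq_add_of_le hle
  set C5 := ((k : ℝ) + 5) * C with hC5
  have hC50 : 0 < C5 := by positivity
  set Gd : ℝ → ℕ → Prop := fun t V => ∀ i ∈ Finset.range (n + 1), ‖Pa a n m (τ / V) δ t i‖ ≤ (4 / 5) ^ i * V with hGd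
  set Bf : ℝ → ℕ → ℝ := fun t V => ∑ i ∈ Finset.range (n + 1), (‖Pa a n m (τ / V) δ t i‖ / ((4 / 5) ^ i * V)) ^ (2 * kq m V i) with hBf
  set R : ℝ → ℝ := fun t => GW k C5 m τ δ V0 + ∑ j ∈ Finset.range N, GW k C5 m τ δ (V0 + j + 1) * Bf t (V0 + j) with hR
  have hBf0 : ∀ (t : ℝ) (V : ℕ), 0 ≤ Bf t V := by
    intro t V
    refine Finset.sum_nonneg fun i _ => ?_
    positivity
  have hGW0 : ∀ V, 0 ≤ GW k C5 m τ δ V := fun V => (Real.exp_pos _).le
  have hPcont : ∀ V i : ℕ, Continuous (fun t : ℝ => (‖Pa a n m (τ / V) δ t i‖ / ((4 / 5) ^ i * V)) ^ (2 * kq m V i)) := by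
    intro V i
    exact (((Pa_cont _ _ _ _ _ _).norm).div_const _).pow _
  have hBcont : ∀ V : ℕ, Continuous (fun t : ℝ => Bf t V) := by
    intro V
    exact continuous_finsetSum _ fun i _ => hPcont V i
  have hcont : ∀ j : ℕ, Continuous (fun t : ℝ => GW k C5 m τ δ (V0 + j + 1) * Bf t (V0 + j)) :=
    fun j => continuous_const.mul (hBcont _)
  refine ⟨R, continuous_const.add (continuous_finsetSum _ fun j _ => hcont j), fun t => ?_, fun t h1 h2 => ?_, ?_⟩
  · exact add_nonneg (hGW0 _) (Finset.sum_nonneg fun j _ => mul_nonneg (hGW0 _) (hBf0 _ _))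
  · refine first_good2 (Gd t) (GW k C5 m τ δ) (Bf t) _ V0 N hGW0 (hBf0 t) ?_ ?_ ?_
    · -- the last level is always good
      rw [← hN]
      intro i hi
      rw [Finset.mem_range] at hi
      have hVm0 : (0 : ℝ) < Vm := by linarith
      have hl1 : 1 ≤ τ / Vm := by rw [le_div_iff₀ hVm0]; linarith
      refine (Pa_le D hl1 hm0 hδ (by linarith) (by omega)).trans ?_
      have h4 : Real.exp (τ / Vm / 2) ≤ Real.sqrt τ := by
        have h5 : τ / Vm ≤ Real.log τ := by
          rw [div_le_iff₀ hVm0]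
          rw [div_le_iff₀ hlτ0] at hVm1
          linarith
        have h6 : Real.sqrt τ = Real.exp (Real.log τ / 2) := by
          rw [Real.sqrt_eq_rpow, Real.rpow_def_of_pos hτ0]
          congr 1
          ring
        rw [h6, Real.exp_le_exp]
        linarith
      have hD2 := Dd_le hl1 hδ hδ4
      rw [← hm] at hD2
      have hw : 1 / m ≤ (4 / 5 : ℝ) ^ i := by
        calc 1 / m ≤ 1 / 2 ^ n := by gcongr
          _ = (1 / 2 : ℝ) ^ n := by rw [one_div_pow]
          _ ≤ (4 / 5 : ℝ) ^ n := pow_le_pow_left₀ (by norm_num) (by norm_num) n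
          _ ≤ (4 / 5 : ℝ) ^ i := pow_le_pow_of_le_one (by norm_num) (by norm_num) (by omega)
      have hkey : k * (C * Real.sqrt τ * (1 + 2 * m)) ≤ 1 / m * (τ / Real.log τ) := by
        rw [div_mul_div_comm, one_mul, le_div_iff₀ (by positivity)]
        calc k * (C * Real.sqrt τ * (1 + 2 * m)) * (m * Real.log τ) ≤ k * (C * Real.sqrt τ * (3 * m)) * (m * ((k + 2) * m)) := by
              gcongr
              linarith
          _ = Real.sqrt τ * (3 * (k * (k + 2) * C) * m ^ 3) := by ring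
          _ ≤ Real.sqrt τ * Real.sqrt τ := by
              refine mul_le_mul_of_nonneg_left (le_trans ?_ hsτ) hs0.le
              have h7 : (k : ℝ) * (k + 2) * C ≤ k * (k + 2) ^ 2 * C := by
                have h8 : (k : ℝ) + 2 ≤ (k + 2) ^ 2 := by nlinarith
                gcongr
              have h8 : 0 < m ^ 3 := by positivity
              have h9 : 0 ≤ (k : ℝ) * (k + 2) * C := by positivity
              calc 3 * (k * (k + 2) * C) * m ^ 3 ≤ 9 * (k * (k + 2) ^ 2 * C) * m ^ 3 := by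
                    refine mul_le_mul_of_nonneg_right ?_ h8.le
                    linarith
                _ = _ := rfl
          _ = τ := hs2
      have hD0 := Dd_nonneg (by linarith : 0 < τ / Vm) hδ
      calc k * (C * Real.exp (τ / Vm / 2) * (1 + Dd (τ / Vm) δ)) ≤ k * (C * Real.sqrt τ * (1 + 2 * m)) := by gcongr
        _ ≤ 1 / m * (τ / Real.log τ) := hkey
        _ ≤ (4 / 5 : ℝ) ^ i * Vm := by gcongr
    · intro V hV1 hV2 hbad
      simp only [hGd, not_forall, not_le] at hbad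
      obtain ⟨i, hi, hbi⟩ := hbad
      have hVpos : (0 : ℝ) < V := by
        have : 0 < V := by omega
        exact_mod_cast this
      have h3 : 1 ≤ (‖Pa a n m (τ / V) δ t i‖ / ((4 / 5) ^ i * V)) ^ (2 * kq m V i) := by
        refine one_le_pow₀ ?_
        rw [one_le_div (by positivity)]
        exact hbi.le
      refine h3.trans ?_
      exact Finset.single_le_sum (f := fun i => (‖Pa a n m (τ / V) δ t i‖ / ((4 / 5) ^ i * V)) ^ (2 * kq m V i))
        (fun j _ => by positivity) hi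
    · intro V hV1 hV2 hgood
      rw [← hN] at hV2
      have h3 : (V : ℝ) ≤ Vm := by exact_mod_cast hV2
      have hVpos : (0 : ℝ) < V := by
        have : 0 < V := by omega
        exact_mod_cast this
      refine good_bound D hT hδ hδ4 h1 h2 (hV032.trans hV1) (h3.trans hVmτ) hlτ3 ?_
      refine (hs a n m (τ / V) δ t (by positivity) hm0 hnA).trans ?_
      calc ∑ i ∈ Finset.range (n + 1), ‖Pa a n m (τ / V) δ t i‖ ≤ ∑ i ∈ Finset.range (n + 1), (4 / 5 : ℝ) ^ i * V :=
            Finset.sum_le_sum hgood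
        _ = (∑ i ∈ Finset.range (n + 1), (4 / 5 : ℝ) ^ i) * V := by rw [Finset.sum_mul]
        _ ≤ 5 * V := by gcongr; exact sum_w_le _
  · -- the integral
    have hint : ∀ j : ℕ, IntervalIntegrable (fun t : ℝ => GW k C5 m τ δ (V0 + j + 1) * Bf t (V0 + j)) volume (-(3 + T)) (3 + T) :=
      fun j => (hcont j).intervalIntegrable _ _
    rw [hR]
    rw [intervalIntegral.integral_add (continuous_const.intervalIntegrable _ _)
      ((continuous_finsetSum _ fun j _ => hcont j).intervalIntegrable _ _), intervalIntegral.integral_const,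
      intervalIntegral.integral_finsetSum fun j _ => hint j]
    simp_rw [intervalIntegral.integral_const_mul]
    have hfirst : GW k C5 m τ δ V0 ≤ Real.exp ((4 * k + 4 + C5) * X) := by
      unfold GW
      rw [Real.exp_le_exp]
      have hV0b : (V0 : ℝ) ≤ 2 * (X / m) := by
        have : (V0 : ℝ) ≤ Vb := by exact_mod_cast min_le_left _ _
        linarith
      have hV0c : (V0 : ℝ) ≤ τ := by
        have : (V0 : ℝ) ≤ Vm := by exact_mod_cast min_le_right _ _
        linarith
      have hV00 : (0 : ℝ) ≤ V0 := Nat.cast_nonneg _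
      have hlog : Real.log (1 + V0 / (τ * δ)) ≤ 2 * m := by
        rw [Real.log_le_iff_le_exp (by positivity)]
        have h3 : (V0 : ℝ) / (τ * δ) ≤ 1 / δ := by
          rw [div_le_div_iff₀ (by positivity) hδ]
          nlinarith
        have h4 : Real.exp (2 * m) = (1 / δ) * Real.exp m := by
          rw [← hmexp, ← Real.exp_add]; congr 1; ring
        rw [h4]
        have h5 : (2 : ℝ) ≤ Real.exp m := by
          have := Real.add_one_le_exp m
          linarith
        have h6 : 1 ≤ 1 / δ := by rw [← hmexp]; exact Real.one_le_exp hm0.le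
        nlinarith
      have hlog0 : 0 ≤ Real.log (1 + V0 / (τ * δ)) := Real.log_nonneg (by
        have : 0 ≤ (V0 : ℝ) / (τ * δ) := by positivity
        linarith)
      have h7 : (k : ℝ) * V0 * Real.log (1 + V0 / (τ * δ)) ≤ 4 * k * X := by
        calc (k : ℝ) * V0 * Real.log (1 + V0 / (τ * δ)) ≤ k * (2 * (X / m)) * (2 * m) := by gcongr
          _ = 4 * k * X := by field_simp; ring
      have h8 : 5 * (V0 : ℝ) ≤ 4 * X := by
        have h9 : X / m ≤ X / 400 := by gcongr
        linarith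
      have h9 : C5 * m ≤ C5 * X := by gcongr
      linarith
    have hj : ∀ j ∈ Finset.range N, GW k C5 m τ δ (V0 + j + 1) * ∫ t in (-(3 + T))..(3 + T), Bf t (V0 + j) ≤
        Real.exp m * (C * (3 + T) * Real.exp ((Ct + C5) * X)) := by
      intro j hj
      rw [Finset.mem_range] at hj
      have hvm : V0 + j + 1 ≤ Vm := by omega
      have hV0b : V0 = Vb := by
        rw [hV0]
        refine min_eq_left ?_
        by_contra hcon
        rw [not_le] at hcon
        have : V0 = Vm := min_eq_right hcon.le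
        omega
      set V := V0 + j with hV
      have hv1 : 1 ≤ V := by omega
      have hvm' : (V : ℝ) + 1 ≤ Vm := by exact_mod_cast hvm
      have hVpos : (0 : ℝ) < V := by
        have : 0 < V := by omega
        exact_mod_cast this
      have hVlow : 1 / (δ ^ k * m ^ (k + 2)) ≤ (V : ℝ) := by
        refine hVb1.trans ?_
        have : Vb ≤ V := by omega
        exact_mod_cast this
      have hVup : (V : ℝ) ≤ τ / Real.log τ := by linarith
      have hml : m ≤ 4 * (τ / V) := by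
        have h3 : Real.log τ ≤ τ / V := by
          rw [le_div_iff₀ hVpos]
          rw [le_div_iff₀ hlτ0] at hVup
          linarith
        linarith
      rw [intervalIntegral.integral_finsetSum fun i _ => (hPcont V i).intervalIntegrable _ _, Finset.mul_sum]
      have hi : ∀ i ∈ Finset.range (n + 1), GW k C5 m τ δ (V + 1) *
          ∫ t in (-(3 + T))..(3 + T), (‖Pa a n m (τ / V) δ t i‖ / ((4 / 5) ^ i * V)) ^ (2 * kq m V i) ≤
          C * (3 + T) * Real.exp ((Ct + C5) * X) := by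
        intro i hi
        rw [Finset.mem_range] at hi
        have h3 := int_term D hB hv (T := T) (by linarith) hδ hδ4 hm hv1 (n := n) (i := i) (by rw [← hτd]; linarith) hnA hnB
          (by rw [← hτd]; exact hml) hlτ3 (by omega)
        rw [← hτd] at h3
        have h4 := ht δ τ V i hδ hδt hτe2 hτ2 hVlow hVup (by
          have : (2 : ℝ) ^ i ≤ 2 ^ n := pow_le_pow_right₀ (by norm_num) (by omega)
          linarith)
        rw [← hm, ← hX] at h4
        have h5 : GW k C5 m τ δ (V + 1) = Real.exp (k * ((V : ℝ) + 1) * Real.log (1 + ((V : ℝ) + 1) / (τ * δ)) + 5 * ((V : ℝ) + 1)) *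
            Real.exp (C5 * m) := by
          unfold GW
          rw [← Real.exp_add]
          push_cast
          rfl
        rw [h5]
        calc _ ≤ Real.exp (k * ((V : ℝ) + 1) * Real.log (1 + ((V : ℝ) + 1) / (τ * δ)) + 5 * ((V : ℝ) + 1)) * Real.exp (C5 * m) *
              (C * (3 + T) * (2 * (k ^ 2 * B) * 13 ^ i / (m * V)) ^ (kq m V i)) := mul_le_mul_of_nonneg_left h3 (by positivity)
          _ = C * (3 + T) * Real.exp (C5 * m) * (Real.exp (k * ((V : ℝ) + 1) * Real.log (1 + ((V : ℝ) + 1) / (τ * δ)) + 5 * ((V : ℝ) + 1)) *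
              (2 * (k ^ 2 * B) * 13 ^ i / (m * V)) ^ (kq m V i)) := by ring
          _ ≤ C * (3 + T) * Real.exp (C5 * X) * Real.exp (Ct * X) := by
              refine mul_le_mul ?_ h4 (by positivity) (by positivity)
              gcongr
          _ = _ := by rw [mul_assoc, ← Real.exp_add]; congr 2; ring
      refine (Finset.sum_le_sum hi).trans ?_
      rw [Finset.sum_const, Finset.card_range, nsmul_eq_mul]
      refine mul_le_mul_of_nonneg_right ?_ (by positivity)
      have h5 : n + 1 ≤ 2 ^ n := Nat.lt_two_pow_self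
      have h6 : ((n + 1 : ℕ) : ℝ) ≤ 2 ^ n := by exact_mod_cast h5
      have h7 : m ≤ Real.exp m := by linarith [Real.add_one_le_exp m]
      linarith
    have hsum := Finset.sum_le_sum hj
    rw [Finset.sum_const, Finset.card_range, nsmul_eq_mul] at hsum
    have hNτ : (N : ℝ) ≤ Real.exp ((k + 2) * m) := by
      have : N ≤ Vm := by omega
      have h4 : (N : ℝ) ≤ Vm := by exact_mod_cast this
      linarith
    have h3T : 3 + T ≤ 2 * T := by linarith
    have hT0 : 0 < T := by linarith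
    have hCe : C ≤ Real.exp (C * X) := by
      have h5 := Real.add_one_le_exp (C * X)
      nlinarith
    have hmm : Real.exp ((k + 2) * m) * Real.exp m ≤ Real.exp ((k + 3) * X) := by
      rw [← Real.exp_add, Real.exp_le_exp]; nlinarith
    have p1 : (3 + T - -(3 + T)) • GW k C5 m τ δ V0 ≤ T * (4 * Real.exp ((4 * k + 4 + C5) * X)) := by
      rw [smul_eq_mul]
      have : 3 + T - -(3 + T) ≤ 4 * T := by linarith
      calc (3 + T - -(3 + T)) * GW k C5 m τ δ V0 ≤ (4 * T) * Real.exp ((4 * k + 4 + C5) * X) := by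
            refine mul_le_mul this hfirst (hGW0 _) (by positivity)
        _ = _ := by ring
    have p2 : (N : ℝ) * (Real.exp m * (C * (3 + T) * Real.exp ((Ct + C5) * X))) ≤
        T * (2 * Real.exp ((Ct + C5 + C + (k + 3)) * X)) := by
      calc (N : ℝ) * (Real.exp m * (C * (3 + T) * Real.exp ((Ct + C5) * X))) ≤
          Real.exp ((k + 2) * m) * (Real.exp m * (Real.exp (C * X) * (2 * T) * Real.exp ((Ct + C5) * X))) := by gcongr
        _ = T * (2 * ((Real.exp ((k + 2) * m) * Real.exp m) * Real.exp (C * X) * Real.exp ((Ct + C5) * X))) := by ring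
        _ ≤ T * (2 * (Real.exp ((k + 3) * X) * Real.exp (C * X) * Real.exp ((Ct + C5) * X))) := by gcongr
        _ = _ := by rw [← Real.exp_add, ← Real.exp_add]; congr 3; ring
    set Kf := Ct + (4 * (k : ℝ) + 20) + (2 * k + 15) * C with hKf
    have hC5' : C5 = k * C + 5 * C := by rw [hC5]; ring
    have hkC : 0 < k * C := by positivity
    have q3 : 4 * Real.exp ((4 * k + 4 + C5) * X) + 2 * Real.exp ((Ct + C5 + C + (k + 3)) * X) ≤ Real.exp (Kf * X) := by
      have r1 : Real.exp ((4 * k + 4 + C5) * X) ≤ Real.exp ((Kf - 1) * X) := by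
        rw [Real.exp_le_exp]; refine mul_le_mul_of_nonneg_right ?_ hX0.le; rw [hKf]; linarith
      have r2 : Real.exp ((Ct + C5 + C + (k + 3)) * X) ≤ Real.exp ((Kf - 1) * X) := by
        rw [Real.exp_le_exp]; refine mul_le_mul_of_nonneg_right ?_ hX0.le; rw [hKf]; linarith
      have r3 : Real.exp (Kf * X) = Real.exp X * Real.exp ((Kf - 1) * X) := by
        rw [← Real.exp_add]; congr 1; ring
      have r4 : 7 ≤ Real.exp X := by
        have := Real.add_one_le_exp X
        linarith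
      rw [r3]
      nlinarith [Real.exp_pos ((Kf - 1) * X)]
    calc _ ≤ T * (4 * Real.exp ((4 * k + 4 + C5) * X)) + T * (2 * Real.exp ((Ct + C5 + C + (k + 3)) * X)) := by linarith
      _ = T * (4 * Real.exp ((4 * k + 4 + C5) * X) + 2 * Real.exp ((Ct + C5 + C + (k + 3)) * X)) := by ring
      _ ≤ _ := by gcongr

end Pool.Agent.N964.GX
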