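import Mathlib
import Pool.Agent.N964.GX.E2

set_option autoImplicit false

/-!
# Project GX: the mean
-/

namespace Pool.Agent.N964.GX

open Complex MeasureTheory Filter
open Pool.Agent.N964.MX (Dd kk ww Pl cc th cp wt kq mem_Pl Pl_mono th_le th_self g_nonneg g_le_half norm_ppow Dd_nonneg Dd_le
  ell_ge Lg_mono log_mem pow_two_ge_one first_good2 sum_w_le)
open Pool.Agent.Y23 (Lg)
open Pool.Agent.W354 (LogC)
open Y767.WH (GoodH)

lemma PA_le {k : ℕ} {C : ℝ} {F : ℂ → ℂ} {a : ℕ → ℂ} (D : Dat k C F a) {l δ t : ℝ} (hl : 1 ≤ l)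
    (hδ : 0 < δ) (hδ1 : δ ≤ 1) : ‖PA a l δ t‖ ≤ k * (C * Real.exp (l / 2) * (1 + Dd l δ)) := by
  refine le_trans ?_ (mul_le_mul_of_nonneg_left (D.one l δ hl hδ hδ1) (Nat.cast_nonneg k))
  unfold PA
  refine (norm_sum_le _ _).trans ?_
  rw [Finset.mul_sum]
  refine Finset.sum_le_sum fun p hp => ?_
  have h0 := cc_nonneg D hl hδ hδ1 hp
  rw [mem_Pl] at hp
  have ha := D.ala p hp.2
  rw [norm_mul, norm_ppow hp.2.ne_zero, mul_one, norm_mul, Complex.norm_real, Real.norm_eq_abs, abs_of_nonneg h0, mul_comm]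
  exact mul_le_mul_of_nonneg_right ha h0

/-- the pointwise bound with the shortest polynomial -/
lemma pt_one {k : ℕ} {C : ℝ} {F : ℂ → ℂ} {a : ℕ → ℂ} (D : Dat k C F a) {δ t : ℝ} (hδ : 0 < δ) (hδ4 : δ ≤ 1 / 4)
    (h1 : C ≤ t) (h2 : Real.exp 8 ≤ t) :
    ‖F (1 / 2 + δ + t * I)‖⁻¹ ≤ Real.exp ((2 * k * Lg t + (3 + 6 * k) * C) * Real.log (1 / δ)) := by
  have hC := D.pos
  have hC0 : 0 < C := by linarith
  have hℓ := ell_ge hδ hδ4
  refine (D.main t δ 1 h1 hδ (by linarith) le_rfl (by simpa using h2)).trans (Real.exp_le_exp.2 ?_)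
  have hD0 := Dd_nonneg (by norm_num : (0 : ℝ) < 1) hδ
  have hD2 := Dd_le le_rfl hδ hδ4
  have h3 := PA_le D (t := t) le_rfl hδ (by linarith)
  have h4 : Real.exp (1 / 2) ≤ 2 := by
    have h5 : Real.exp (1 / 2) ^ 2 = Real.exp 1 := by rw [← Real.exp_nat_mul]; norm_num
    have := Real.exp_one_lt_d9
    nlinarith [Real.exp_pos (1 / 2)]
  have hLg : 1 ≤ Lg t := Pool.Agent.Y23.one_le_Lg t
  have hk0 : (0 : ℝ) ≤ k := Nat.cast_nonneg k
  rw [Real.log_one, div_one, add_zero]
  have a1 : k * Lg t * Dd 1 δ ≤ k * Lg t * (2 * Real.log (1 / δ)) := by gcongr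
  have a2 : C * (1 + Dd 1 δ) ≤ C * (3 * Real.log (1 / δ)) := by gcongr; linarith
  have a3 : k * (C * Real.exp (1 / 2) * (1 + Dd 1 δ)) ≤ k * (C * 2 * (3 * Real.log (1 / δ))) := by gcongr; linarith
  nlinarith

theorem mean_of (h1 : S_pt) (h2 : MX.S_coef) (h3 : S_momc) (hs : S_splita) (hvar : S_vark) (hterm : S_termk) :
    S_meank := by
  intro k A lc F a h
  obtain ⟨C, D⟩ := dat_of h1 h2 h3 h
  obtain ⟨K, δ0, hK, hδ00, hδ04, hδ0m, HK⟩ := block D hs hvar hterm
  have hC := D.pos
  have hC0 : 0 < C := by linarith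
  have hk1 : (1 : ℝ) ≤ k := by exact_mod_cast D.hk
  set M := K + 2 * k + (3 + 6 * k) * C with hM
  have hM0 : 0 < M := by positivity
  set S := 5 * C + Real.exp 8 with hS
  have he8 : 0 < Real.exp 8 := Real.exp_pos _
  have hS15 : 15 ≤ S := by linarith
  refine ⟨M + 1 + S, δ0, by linarith, hδ00, hδ04, fun T δ hT hδ hδd hLT => ?_⟩
  have hδ4 : δ ≤ 1 / 4 := hδd.trans hδ04
  have hℓ := ell_ge hδ hδ4
  set m := Real.log (1 / δ) with hm
  have hmm0 : Real.log (1 / δ0) ≤ m := Real.log_le_log (by positivity) (one_div_le_one_div_of_le hδ hδd)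
  obtain ⟨hm400, f1⟩ := hδ0m m hmm0
  have hmp : 0 < m := by linarith
  set X := Xk k δ with hX
  have hXe : X = Real.exp (k * m) / m ^ (k + 1) := Xk_eq hδ
  have hX3 : 1 / (δ ^ k * m ^ (k + 2)) = X / m := by
    rw [hX]; unfold Xk
    rw [← hm, div_div, mul_assoc, ← pow_succ]
  have hekm : Real.exp m ≤ Real.exp (k * m) := Real.exp_le_exp.2 (by nlinarith)
  have hXm : Real.exp (m / 2) ≤ X / m := by
    rw [hXe, div_div, ← pow_succ, le_div_iff₀ (by positivity)]
    calc Real.exp (m / 2) * m ^ (k + 1 + 1) ≤ Real.exp (m / 2) * Real.exp (m / 2) := by gcongr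
      _ = Real.exp m := by rw [← Real.exp_add]; congr 1; ring
      _ ≤ _ := hekm
  have hXm200 : 200 ≤ X / m := by
    have := Real.add_one_le_exp (m / 2)
    linarith
  have hmX : m ≤ X := by
    rw [le_div_iff₀ hmp] at hXm200
    nlinarith
  have hX0 : 0 < X := by linarith
  set g : ℝ → ℝ := fun t => ‖F (1 / 2 + δ + t * I)‖⁻¹ with hg
  have hgc : ContinuousOn g (Set.Ici 1) := D.cont δ hδ
  have hg0 : ∀ t, 0 ≤ g t := fun t => inv_nonneg.2 (norm_nonneg _)
  have hgi : ∀ u v : ℝ, 1 ≤ u → 1 ≤ v → IntervalIntegrable g volume u v := by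
    intro u v hu hv
    refine (hgc.mono ?_).intervalIntegrable
    intro x hx
    rw [Set.mem_uIcc] at hx
    rw [Set.mem_Ici]
    rcases hx with hx | hx <;> linarith [hx.1]
  have hpt : ∀ T t : ℝ, Lg T ≤ X / m → S ≤ t → t ≤ T → g t ≤ Real.exp (M * X) := by
    intro T t h6 h7 h8
    refine (pt_one D hδ hδ4 (by linarith) (by linarith)).trans (Real.exp_le_exp.2 ?_)
    rw [← hm]
    have h9 : Lg t ≤ Lg T := Lg_mono (by rw [abs_of_nonneg (by linarith)]; exact h8)
    have h10 : (2 * k * Lg t + (3 + 6 * k) * C) * m ≤ (2 * k * (X / m) + (3 + 6 * k) * C) * m := by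
      gcongr
      linarith
    have h11 : (2 * k * (X / m) + (3 + 6 * k) * C) * m = 2 * k * X + (3 + 6 * k) * C * m := by field_simp
    have h12 : (3 + 6 * k) * C * m ≤ (3 + 6 * k) * C * X := by gcongr
    have h13 : 0 ≤ K * X := by positivity
    rw [hM]
    nlinarith
  have key : ∀ n : ℕ, ∀ T : ℝ, S ≤ T → T ≤ S * 2 ^ n → Lg T ≤ 1 / δ ^ (k + 2) → ∫ t in S..T, g t ≤ 2 * T * Real.exp (M * X) := by
    intro n
    induction n with
    | zero =>
      intro T hT hT3 _
      have : T = S := le_antisymm (by simpa using hT3) hT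
      rw [this, intervalIntegral.integral_same]
      positivity
    | succ n ih =>
      intro T hT hTn hLT
      have hT0 : 0 < T := by linarith
      rcases le_or_gt (Lg T) (X / m) with h4 | h4
      · have i1 : ∫ t in S..T, g t ≤ ∫ t in S..T, Real.exp (M * X) := by
          refine intervalIntegral.integral_mono_on hT (hgi _ _ (by linarith) (by linarith)) (continuous_const.intervalIntegrable _ _) ?_
          intro t ht
          exact hpt T t h4 ht.1 ht.2
        rw [intervalIntegral.integral_const, smul_eq_mul] at i1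
        refine i1.trans (mul_le_mul_of_nonneg_right ?_ (Real.exp_pos _).le)
        linarith
      · obtain ⟨R, hR1, hR2, hR3, hR4⟩ := HK T δ (by linarith) hδ hδd (by rw [← hm, hX3]; exact h4.le) hLT
        rw [← hX] at hR4
        have h7 : T * Real.exp (K * X) ≤ T * Real.exp (M * X) := by
          refine mul_le_mul_of_nonneg_left (Real.exp_le_exp.2 ?_) (by linarith)
          refine mul_le_mul_of_nonneg_right ?_ hX0.le
          have : 0 ≤ (3 + 6 * (k : ℝ)) * C := by positivity
          rw [hM]; linarith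
        have hblk : ∀ u : ℝ, T / 2 ≤ u → 1 ≤ u → u ≤ T → ∫ t in u..T, g t ≤ T * Real.exp (K * X) := by
          intro u hu hu1 huT
          have i2 : ∫ t in u..T, g t ≤ ∫ t in u..T, R t := by
            refine intervalIntegral.integral_mono_on huT (hgi _ _ hu1 (by linarith)) (hR1.intervalIntegrable _ _) ?_
            intro t ht
            exact hR3 t (by linarith [ht.1]) ht.2
          have i3 : ∫ t in u..T, R t ≤ ∫ t in (-(3 + T))..(3 + T), R t := by
            have s1 : ∀ a b : ℝ, a ≤ b → 0 ≤ ∫ t in a..b, R t := fun a b hab =>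
              intervalIntegral.integral_nonneg hab fun t _ => hR2 t
            have s2 : ∫ t in (-(3 + T))..(3 + T), R t = (∫ t in (-(3 + T))..u, R t) + (∫ t in u..T, R t) + (∫ t in T..(3 + T), R t) := by
              rw [intervalIntegral.integral_add_adjacent_intervals (hR1.intervalIntegrable _ _) (hR1.intervalIntegrable _ _),
                intervalIntegral.integral_add_adjacent_intervals (hR1.intervalIntegrable _ _) (hR1.intervalIntegrable _ _)]
            rw [s2]
            have := s1 (-(3 + T)) u (by linarith)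
            have := s1 T (3 + T) (by linarith)
            linarith
          linarith
        rcases le_or_gt (T / 2) S with h5 | h5
        · have := hblk S h5 (by linarith) hT
          have h8 : 0 ≤ T * Real.exp (M * X) := by positivity
          linarith
        · have hLL : Lg (T / 2) ≤ Lg T := Lg_mono (by rw [abs_of_nonneg (by linarith)]; linarith)
          have h6 := ih (T / 2) h5.le (by rw [pow_succ] at hTn; linarith) (hLL.trans hLT)
          have h8 := hblk (T / 2) le_rfl (by linarith) (by linarith)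
          have s2 : ∫ t in S..T, g t = (∫ t in S..(T / 2), g t) + (∫ t in (T / 2)..T, g t) := by
            rw [intervalIntegral.integral_add_adjacent_intervals (hgi _ _ (by linarith) (by linarith)) (hgi _ _ (by linarith) (by linarith))]
          rw [s2]
          linarith
  have hT' : S ≤ T := by linarith
  obtain ⟨n, hn⟩ := pow_unbounded_of_one_lt T (one_lt_two)
  have h7 := key n T hT' (by
    have : (0 : ℝ) < 2 ^ n := by positivity
    nlinarith) hLT
  have h8 : ∫ t in (M + 1 + S)..T, g t ≤ ∫ t in S..T, g t := by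
    have s2 : ∫ t in S..T, g t = (∫ t in S..(M + 1 + S), g t) + (∫ t in (M + 1 + S)..T, g t) := by
      rw [intervalIntegral.integral_add_adjacent_intervals (hgi _ _ (by linarith) (by linarith)) (hgi _ _ (by linarith) (by linarith))]
    have s1 : 0 ≤ ∫ t in S..(M + 1 + S), g t := intervalIntegral.integral_nonneg (by linarith) fun t _ => hg0 t
    rw [s2]
    linarith
  refine h8.trans (h7.trans ?_)
  have h9 : 2 ≤ Real.exp X := by
    have := Real.add_one_le_exp X
    linarith
  have h10 : 2 * T * Real.exp (M * X) ≤ T * (Real.exp X * Real.exp (M * X)) := by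
    have h11 := Real.exp_pos (M * X)
    nlinarith [mul_le_mul_of_nonneg_right h9 (mul_nonneg (by linarith : 0 ≤ T) h11.le)]
  refine h10.trans (mul_le_mul_of_nonneg_left ?_ (by linarith))
  rw [← Real.exp_add, Real.exp_le_exp]
  nlinarith [mul_pos (by linarith : 0 < S) hX0]

end Pool.Agent.N964.GX
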