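import Mathlib
import Pool.Agent.N964.GX.E3

set_option autoImplicit false

/-!
# Project GX: the direct part, assembly
-/

namespace Pool.Agent.N964.GX

open Complex MeasureTheory Filter
open Pool.Agent.N964.MX (wt)
open Pool.Agent.Y23 (Lg)
open Pool.Agent.W354 (LogC)
open Y767.WH (GoodH)

lemma F_ne {k r : ℕ} {A : ℝ} {lc : ℝ → ℝ} {F F' E : ℂ → ℂ} {a a' b : ℕ → ℂ} (H : LL k r A lc F F' E a a' b)
    (RH : ∀ s : ℂ, 1 / 2 < s.re → E s ≠ 0) {s : ℂ} (hs : 1 / 2 < s.re) (h1 : s ≠ 1) : F s ≠ 0 := by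
  intro h0
  have h2 := H.hE s h1
  rw [h0, mul_zero] at h2
  exact RH s hs h2

lemma lr_of {k r : ℕ} {A : ℝ} {lc : ℝ → ℝ} {F F' E : ℂ → ℂ} {a a' b : ℕ → ℂ} (H : LL k r A lc F F' E a a' b)
    (RH : ∀ s : ℂ, 1 / 2 < s.re → E s ≠ 0) : LR k A lc F a := by
  refine ⟨H.hk, H.hA, H.hlc, H.good, H.ram, fun s hs h1 => F_ne H RH hs ?_⟩
  intro h
  rw [h] at h1
  norm_num at h1

lemma lr_of' {k r : ℕ} {A : ℝ} {lc : ℝ → ℝ} {F F' E : ℂ → ℂ} {a a' b : ℕ → ℂ} (H : LL k r A lc F F' E a a' b)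
    (RH : ∀ s : ℂ, 1 / 2 < s.re → E s ≠ 0) : LR k A lc F' a' := by
  refine ⟨H.hk, H.hA, H.hlc, H.good', H.ram', fun s hs h1 => ?_⟩
  rw [H.hconj]
  have h2 : F ((starRingEnd ℂ) s) ≠ 0 := by
    refine F_ne H RH (by rw [Complex.conj_re]; exact hs) ?_
    intro h
    have h3 := congrArg Complex.im h
    rw [Complex.conj_im, Complex.one_im] at h3
    linarith
  simpa using h2

lemma fi_eq {k r : ℕ} {A : ℝ} {lc : ℝ → ℝ} {F F' E : ℂ → ℂ} {a a' b : ℕ → ℂ} (H : LL k r A lc F F' E a a' b)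
    {s : ℂ} (h1 : s ≠ 1) : fi r E s = (F s)⁻¹ := by
  unfold fi
  rw [H.hE s h1]
  have h2 : (s - 1) ^ r ≠ 0 := pow_ne_zero _ (sub_ne_zero.2 h1)
  by_cases h3 : F s = 0
  · rw [h3]; simp
  · field_simp

lemma fi_norm {k r : ℕ} {A : ℝ} {lc : ℝ → ℝ} {F F' E : ℂ → ℂ} {a a' b : ℕ → ℂ} (H : LL k r A lc F F' E a a' b)
    {δ t : ℝ} (ht : t ≠ 0) : ‖fi r E (1 / 2 + δ + t * I)‖ = ‖F (1 / 2 + δ + t * I)‖⁻¹ := by
  rw [fi_eq H, norm_inv]
  intro h
  have h3 := congrArg Complex.im h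
  simp at h3
  exact ht h3

lemma fi_norm' {k r : ℕ} {A : ℝ} {lc : ℝ → ℝ} {F F' E : ℂ → ℂ} {a a' b : ℕ → ℂ} (H : LL k r A lc F F' E a a' b)
    {δ t : ℝ} (ht : t ≠ 0) : ‖fi r E (1 / 2 + δ + ((-t : ℝ) : ℂ) * I)‖ = ‖F' (1 / 2 + δ + t * I)‖⁻¹ := by
  rw [fi_norm H (neg_ne_zero.2 ht), H.hconj, RCLike.norm_conj]
  congr 3
  simp only [map_add, map_mul, Complex.conj_ofReal, Complex.conj_I, map_div₀, map_one, map_ofNat]
  push_cast
  ring

lemma fi_cont {r : ℕ} {E : ℂ → ℂ} (hE : Differentiable ℂ E) (RH : ∀ s : ℂ, 1 / 2 < s.re → E s ≠ 0) {δ : ℝ} (hδ : 0 < δ) :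
    Continuous (fun t : ℝ => fi r E (1 / 2 + δ + t * I)) := by
  unfold fi
  refine Continuous.div (by fun_prop) (hE.continuous.comp (by fun_prop)) fun t => RH _ (by simp; linarith)

lemma fi_diff {r : ℕ} {E : ℂ → ℂ} (hE : Differentiable ℂ E) (RH : ∀ s : ℂ, 1 / 2 < s.re → E s ≠ 0) :
    DifferentiableOn ℂ (fi r E) {s : ℂ | 1 / 2 < s.re} := by
  unfold fi
  refine DifferentiableOn.div ?_ hE.differentiableOn fun s hs => RH s hs
  exact (by fun_prop : Differentiable ℂ fun s : ℂ => (s - 1) ^ r).differentiableOn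

lemma log_small (c : ℝ) (hc : 0 < c) : ∃ K1 : ℝ, ∀ K : ℝ, K1 ≤ K → Real.log (3 + K) ≤ c * K := by
  have h : (fun x : ℝ => Real.log x) =o[atTop] fun x : ℝ => x := Real.isLittleO_log_id_atTop
  have h1 := h.def (show (0 : ℝ) < c / 2 by positivity)
  obtain ⟨x0, hx0⟩ := eventually_atTop.1 h1
  refine ⟨max 3 x0, fun K hK => ?_⟩
  have hK3 : 3 ≤ K := (le_max_left _ _).trans hK
  have hK0 : x0 ≤ K := (le_max_right _ _).trans hK
  have h2 := hx0 (3 + K) (by linarith)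
  rw [Real.norm_eq_abs, Real.norm_eq_abs, abs_of_nonneg (by linarith : (0 : ℝ) ≤ 3 + K)] at h2
  have h3 := (le_abs_self _).trans h2
  nlinarith

theorem dir_of (h1 : S_pt) (hc : MX.S_coef) (hmo : S_momc) (h2 : S_meank) (h3 : S_tail) (h4 : S_low) (h5 : S_bb)
    (h6 : S_gr) (h7 : S_per) (h8 : S_fin) : S_dir := by
  intro k r A lc F F' E a a' b H RH
  have R1 := lr_of H RH
  have R2 := lr_of' H RH
  have hk1 : (1 : ℝ) ≤ k := by exact_mod_cast H.hk
  obtain ⟨B, hB, hb⟩ := h5 k r A lc F F' E a a' b H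
  obtain ⟨Cp, hCp, hp⟩ := h7 b (fi r E) B hB hb (fi_diff H.ent RH) (by
    intro s hs
    have hs1 : s ≠ 1 := by rintro rfl; norm_num at hs
    rw [fi_eq H hs1]
    exact inv_eq_of_mul_eq_one_right (H.hb s (by linarith))) (h6 h1 h4 k r A lc F F' E a a' b H RH)
  obtain ⟨C1, d1, hC1, hd1, hd14, m1⟩ := h2 k A lc F a R1
  obtain ⟨C2, d2, hC2, hd2, hd24, m2⟩ := h2 k A lc F' a' R2
  obtain ⟨d3, hd3, hd34, t1⟩ := h3 h1 k A lc F a R1
  obtain ⟨d4, hd4, hd44, t2⟩ := h3 h1 k A lc F' a' R2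
  obtain ⟨CD, D⟩ := dat_of h1 hc hmo R1
  obtain ⟨CD', D'⟩ := dat_of h1 hc hmo R2
  have hCD := D.pos
  have hCD' := D'.pos
  have he8 := Real.exp_pos 8
  set R := CD + CD' + Real.exp 8 with hR
  obtain ⟨C4, hC4, hlow⟩ := h4 r E H.ent RH R
  obtain ⟨K1, hK1⟩ := log_small (1 / (4 * k)) (by positivity)
  set K := |K1| + Cp + C1 + C2 + 2 * B + R + C4 + 2 * ((3 + 6 * k) * (CD + CD')) with hK
  have hcd0 : 0 < (3 + 6 * (k : ℝ)) * (CD + CD') := by positivity
  have hK1' := abs_nonneg K1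
  have hK1'' := le_abs_self K1
  have hlogK := hK1 K (by linarith)
  have hLgK : 2 * k * Real.log (3 + K) + (3 + 6 * k) * (CD + CD') ≤ K := by
    have h9 : 2 * k * Real.log (3 + K) ≤ K / 2 := by
      calc 2 * k * Real.log (3 + K) ≤ 2 * k * (1 / (4 * k) * K) := by gcongr
        _ = K / 2 := by field_simp; norm_num
    linarith
  have hcont : ∀ δ : ℝ, 0 < δ → Continuous (fun t : ℝ => ‖fi r E (1 / 2 + δ + t * I)‖) := fun δ hδ =>
    (fi_cont H.ent RH hδ).norm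
  refine h8 k (fun y => ‖∑ n ∈ Finset.Icc 1 ⌊y⌋₊, b n‖) K (min (min d1 d2) (min d3 d4)) H.hk (by linarith)
    (lt_min (lt_min hd1 hd2) (lt_min hd3 hd4)) ((min_le_left _ _).trans ((min_le_left _ _).trans hd14))
    (fun δ t => ‖fi r E (1 / 2 + δ + t * I)‖) (fun δ t => norm_nonneg _) (fun δ hδ _ => hcont δ hδ) ?_ ?_ ?_ ?_ ?_
  · -- Perron
    intro δ y hδ hδ4 hy
    obtain ⟨i1, i2⟩ := hp δ y hδ hδ4 hy
    refine ⟨i1, i2.trans ?_⟩
    have hI : 0 ≤ ∫ t : ℝ, ‖fi r E (1 / 2 + δ + t * I)‖ * wt y t :=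
      integral_nonneg fun t => mul_nonneg (norm_nonneg _) (MX.wt_nonneg (by linarith) t)
    have hKp : Cp ≤ K := by linarith
    gcongr
  · -- trivial
    intro y hy
    have hy0 : 0 < y := by linarith
    refine (norm_sum_le _ _).trans ?_
    have i1 : ∀ n ∈ Finset.Icc 1 ⌊y⌋₊, ‖b n‖ ≤ B * y := by
      intro n hn
      rw [Finset.mem_Icc] at hn
      have hn1 : (1 : ℝ) ≤ n := by exact_mod_cast hn.1
      have hny : (n : ℝ) ≤ y := (Nat.le_floor_iff hy0.le).1 hn.2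
      refine (hb n hn.1).trans (mul_le_mul_of_nonneg_left ?_ hB.le)
      calc (n : ℝ) ^ (1 / 4 : ℝ) ≤ (n : ℝ) ^ (1 : ℝ) := Real.rpow_le_rpow_of_exponent_le hn1 (by norm_num)
        _ = n := Real.rpow_one _
        _ ≤ y := hny
    refine (Finset.sum_le_sum i1).trans ?_
    rw [Finset.sum_const, Nat.card_Icc, nsmul_eq_mul, Nat.add_sub_cancel]
    have h9 : ((⌊y⌋₊ : ℕ) : ℝ) ≤ y := Nat.floor_le hy0.le
    calc ((⌊y⌋₊ : ℕ) : ℝ) * (B * y) ≤ y * (B * y) := by gcongr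
      _ = B * y ^ 2 := by ring
      _ ≤ K * y ^ 2 := by
        refine mul_le_mul_of_nonneg_right ?_ (by positivity)
        linarith
  · -- small heights
    intro δ t hδ hδd ht
    have hδ4 : δ ≤ 1 / 4 := hδd.trans ((min_le_left _ _).trans ((min_le_left _ _).trans hd14))
    have hℓ := MX.ell_ge hδ hδ4
    have fin : ∀ G c, Dat k c G a ∨ Dat k c G a' → c ≤ CD + CD' → ∀ u : ℝ, R ≤ u → u ≤ K → ‖G (1 / 2 + δ + u * I)‖⁻¹ ≤
        Real.exp (K * (1 + Real.log (1 / δ))) := by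
      intro G c hG hcle u hu1 hu2
      have hc3 : 3 ≤ c := by rcases hG with hG | hG <;> exact hG.pos
      have hp1 : ‖G (1 / 2 + δ + u * I)‖⁻¹ ≤ Real.exp ((2 * k * Lg u + (3 + 6 * k) * c) * Real.log (1 / δ)) := by
        rcases hG with hG | hG <;> exact pt_one hG hδ hδ4 (by linarith) (by linarith)
      refine hp1.trans (Real.exp_le_exp.2 ?_)
      have hLg : Lg u ≤ Real.log (3 + K) := by
        unfold Pool.Agent.Y23.Lg
        rw [abs_of_nonneg (by linarith)]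
        exact Real.log_le_log (by linarith) (by linarith)
      have h9 : 2 * k * Lg u + (3 + 6 * k) * c ≤ K := by
        refine le_trans ?_ hLgK
        gcongr
      have h10 : (2 * k * Lg u + (3 + 6 * k) * c) * Real.log (1 / δ) ≤ K * Real.log (1 / δ) := by gcongr
      linarith
    rcases le_or_gt |t| R with h | h
    · refine (hlow t δ h hδ (by linarith)).trans (Real.exp_le_exp.2 ?_)
      have : C4 ≤ K := by linarith
      gcongr
    · rcases le_or_gt 0 t with h0 | h0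
      · rw [abs_of_nonneg h0] at h ht
        rw [fi_norm H (by linarith : 0 < t).ne']
        exact fin F CD (Or.inl D) (by linarith) t h.le ht
      · rw [abs_of_neg h0] at h ht
        have e := fi_norm' H (δ := δ) (t := -t) (by linarith : 0 < -t).ne'
        rw [neg_neg] at e
        rw [e]
        exact fin F' CD' (Or.inr D') (by linarith) (-t) h.le ht
  · -- means
    intro δ T hδ hδd hT hLT
    have hδ1 : δ ≤ d1 := hδd.trans ((min_le_left _ _).trans (min_le_left _ _))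
    have hδ2 : δ ≤ d2 := hδd.trans ((min_le_left _ _).trans (min_le_right _ _))
    have hX : 0 ≤ Xk k δ := by
      unfold Xk
      have := Real.log_nonneg (x := 1 / δ) (by rw [le_div_iff₀ hδ]; linarith)
      positivity
    have gen : ∀ (G : ℂ → ℂ) (C : ℝ) (g : ℝ → ℝ), 3 ≤ C → C ≤ K → Continuous g → (∀ t, 0 ≤ g t) → (∀ t : ℝ, 0 < t → g t = ‖G (1 / 2 + δ + t * I)‖⁻¹) →
        (∫ t in C..T, ‖G (1 / 2 + δ + t * I)‖⁻¹ ≤ T * Real.exp (C * Xk k δ)) → ∫ t in K..T, g t ≤ T * Real.exp (K * Xk k δ) := by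
      intro G C g hC3 hCK hgc hg0 hg hI
      have e1 : ∫ t in C..T, ‖G (1 / 2 + δ + t * I)‖⁻¹ = ∫ t in C..T, g t := by
        refine intervalIntegral.integral_congr fun t ht => ?_
        rw [Set.uIcc_of_le (by linarith)] at ht
        exact (hg t (by linarith [ht.1])).symm
      rw [e1] at hI
      have s2 : ∫ t in C..T, g t = (∫ t in C..K, g t) + (∫ t in K..T, g t) := by
        rw [intervalIntegral.integral_add_adjacent_intervals (hgc.intervalIntegrable _ _) (hgc.intervalIntegrable _ _)]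
      have s1 : 0 ≤ ∫ t in C..K, g t := intervalIntegral.integral_nonneg hCK fun t _ => hg0 t
      have s3 : T * Real.exp (C * Xk k δ) ≤ T * Real.exp (K * Xk k δ) := by
        refine mul_le_mul_of_nonneg_left (Real.exp_le_exp.2 ?_) (by linarith)
        gcongr
      linarith
    constructor
    · exact gen F C1 (fun t => ‖fi r E (1 / 2 + δ + t * I)‖) hC1 (by linarith) (hcont δ hδ) (fun t => norm_nonneg _)
        (fun t ht => fi_norm H ht.ne') (m1 T δ (by linarith) hδ hδ1 hLT)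
    · have e2 : ∫ t in (-T)..(-K), ‖fi r E (1 / 2 + δ + t * I)‖ = ∫ t in K..T, ‖fi r E (1 / 2 + δ + ((-t : ℝ) : ℂ) * I)‖ := by
        rw [intervalIntegral.integral_comp_neg (fun t : ℝ => ‖fi r E (1 / 2 + δ + t * I)‖)]
      rw [e2]
      exact gen F' C2 (fun t => ‖fi r E (1 / 2 + δ + ((-t : ℝ) : ℂ) * I)‖) hC2 (by linarith) ((hcont δ hδ).comp continuous_neg)
        (fun t => norm_nonneg _) (fun t ht => fi_norm' H ht.ne') (m2 T δ (by linarith) hδ hδ2 hLT)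
  · -- tail
    intro δ t hδ hδd ht hLt
    have hδ3 : δ ≤ d3 := hδd.trans ((min_le_right _ _).trans (min_le_left _ _))
    have hδ4 : δ ≤ d4 := hδd.trans ((min_le_right _ _).trans (min_le_right _ _))
    rcases le_or_gt 0 t with h0 | h0
    · rw [abs_of_nonneg h0] at ht ⊢
      rw [fi_norm H (by linarith : 0 < t).ne']
      exact t1 δ t hδ hδ3 ht hLt
    · have e := fi_norm' H (δ := δ) (t := -t) (by linarith : 0 < -t).ne'
      rw [neg_neg] at e
      rw [e]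
      rw [abs_of_neg h0] at ht ⊢
      refine t2 δ (-t) hδ hδ4 ht ?_
      have : Lg (-t) = Lg t := by unfold Pool.Agent.Y23.Lg; rw [abs_neg]
      rw [this]
      exact hLt

end Pool.Agent.N964.GX
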