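import Mathlib
import Pool.Agent.N964.GX.Dir
import Pool.Agent.N608.GXA0
import Pool.Agent.N40.GXA1
import Pool.Agent.N40.GXA2
import Pool.Agent.N707.GXA3
import Pool.Agent.N878.GXPT
import Pool.Agent.N607.GXB
import Pool.Agent.N394.GXC
import Pool.Agent.N50.GXtermk
import Pool.Agent.N951.GXT
import Pool.Agent.N342.GXLow
import Pool.Agent.N669.GXJ
import Pool.Agent.N669.GXH
import Pool.Agent.N521.GXF
import Pool.Agent.N157.GXK
import Pool.Agent.N702.GX.CV

set_option autoImplicit false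

/-!
# Project GX: assembly of the engine
-/

namespace Pool.Agent.N964.GX

open Complex MeasureTheory

theorem pt_all : S_pt :=
  Pool.Agent.N878.GXPT.pt_of (Pool.Agent.N40.GX.ct_of Pool.Agent.N608.GXA0.res) Pool.Agent.N40.GX.arch Pool.Agent.N707.GXA3.prim

theorem mean_all : S_meank :=
  mean_of pt_all Pool.Agent.N99.MXD.coef Pool.Agent.N607.GXB.momc Pool.Agent.N394.GXC.splita Pool.Agent.N394.GXC.vark
    Pool.Agent.N50.GX.termk

theorem dir_all : S_dir :=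
  dir_of pt_all Pool.Agent.N99.MXD.coef Pool.Agent.N607.GXB.momc mean_all Pool.Agent.N951.GXT.tail
    Pool.Agent.N342.GXLow.low Pool.Agent.N669.GX.bb Pool.Agent.N669.GX.gr Pool.Agent.N521.GXF.per Pool.Agent.N157.GXK.fin

/-- **The engine.** -/
theorem engine {k r : ℕ} {A : ℝ} {lc : ℝ → ℝ} {F F' E : ℂ → ℂ} {a a' b : ℕ → ℂ} (H : LL k r A lc F F' E a a' b) :
    (∀ s : ℂ, 1 / 2 < s.re → E s ≠ 0) ↔
      ∃ C : ℝ, ∀ x : ℝ, 3 ≤ x → ‖∑ n ∈ Finset.Icc 1 ⌊x⌋₊, b n‖ ≤ Real.sqrt x * Real.exp (C * Qk k x) := by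
  constructor
  · intro RH
    obtain ⟨C, _, hC⟩ := dir_all k r A lc F F' E a a' b H RH
    exact ⟨C, hC⟩
  · exact Pool.Agent.N702.GX.cv k r A lc F F' E a a' b H

end Pool.Agent.N964.GX
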