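import Mathlib
import Pool.Agent.N964.GX.Stm2
import Pool.Agent.W169.HF.DefsNF
import Pool.Agent.W388.TW.D0

set_option autoImplicit false

/-!
# Project GX: twists of newforms (statement)
-/

namespace Pool.Agent.N964.GX

open Complex MeasureTheory
open Pool.Agent.W354 (LogC)
open Y767.WH (GoodH)
open UpperHalfPlane MatrixGroups CongruenceSubgroup

/-- GX/Q1: the twists of a newform of weight two with the bound of Hasse by primitive characters, in the normalisation
with critical line `re s = 1/2` -/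
def S_tw : Prop := ∀ (N : ℕ) [NeZero N] (f : CuspForm (Gamma0 N : Subgroup (GL (Fin 2) ℝ)) 2) (w : ℝ),
  Pool.Agent.W169.HF.IsForm N f w → ∀ (q : ℕ) [NeZero q] (χ : DirichletCharacter ℂ q), χ.IsPrimitive → Nat.Coprime q N →
  ∃ (A : ℝ) (lc : ℝ → ℝ) (F F' : ℂ → ℂ) (a a' b : ℕ → ℂ), LL 2 0 A lc F F' F a a' b ∧ W388.FE2 2 N q F ∧
    IsInv (fun n : ℕ => χ (n : ZMod q) * (W388.lamf f n : ℂ)) b ∧
    (∀ s : ℂ, 1 < s.re → LSeriesSummable (fun n : ℕ => χ (n : ZMod q) * (W388.lamf f n : ℂ)) s) ∧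
    ∀ s : ℂ, 1 < s.re → F s = LSeries (fun n : ℕ => χ (n : ZMod q) * (W388.lamf f n : ℂ)) s

end Pool.Agent.N964.GX
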