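import Mathlib
import Pool.Agent.N964.GX.Asm
import Pool.Agent.N964.GX.Stm3
import Pool.Agent.N935.GXInv
import Pool.Agent.N999.GXmul
import Pool.Agent.N97.GXTW

set_option autoImplicit false

/-!
# Project GX: elliptic curves and their twists
-/

namespace Pool.Agent.N964.GX

open Complex MeasureTheory
open Pool.Agent.W354 (LogC)
open Y767.WH (GoodH)
open UpperHalfPlane hiding I
open MatrixGroups CongruenceSubgroup

theorem tw_all : S_tw := Pool.Agent.N97.GX.tw_of Pool.Agent.N935.GXInv.inv Pool.Agent.N935.GXInv.invex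

/-- an L-function of degree `k` in the normalisation with critical line `1/2` with a symmetry of its zeros -/
def Nice (k : ℕ) (F : ℂ → ℂ) : Prop :=
  (∃ (A : ℝ) (lc : ℝ → ℝ) (F' : ℂ → ℂ) (a a' b : ℕ → ℂ), LL k 0 A lc F F' F a a' b) ∧
    ∀ s : ℂ, -1 / 2 < s.re → s.re < 3 / 2 → F s = 0 → F (1 - (starRingEnd ℂ) s) = 0

theorem Nice.mul {k1 k2 : ℕ} {F1 F2 : ℂ → ℂ} (h1 : Nice k1 F1) (h2 : Nice k2 F2) : Nice (k1 + k2) (fun s => F1 s * F2 s) := by
  obtain ⟨⟨A1, lc1, F1', a1, a1', b1, H1⟩, s1⟩ := h1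
  obtain ⟨⟨A2, lc2, F2', a2, a2', b2, H2⟩, s2⟩ := h2
  obtain ⟨A, lc, b, H⟩ := Pool.Agent.N999.GXmul.mul k1 0 A1 lc1 F1 F1' F1 a1 a1' b1 k2 0 A2 lc2 F2 F2' F2 a2 a2' b2 H1 H2
    (Or.inl ⟨rfl, rfl⟩)
  refine ⟨⟨A, lc, _, _, _, b, H⟩, fun s h3 h4 h5 => ?_⟩
  rcases mul_eq_zero.1 h5 with h | h
  · show F1 _ * F2 _ = 0
    rw [s1 s h3 h4 h, zero_mul]
  · show F1 _ * F2 _ = 0
    rw [s2 s h3 h4 h, mul_zero]

theorem Nice.prod {ι : Type*} (S : Finset ι) (hS : S.Nonempty) (k : ℕ) (F : ι → ℂ → ℂ) (H : ∀ i ∈ S, Nice k (F i)) :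
    Nice (k * S.card) (fun s => ∏ i ∈ S, F i s) := by
  classical
  induction hS using Finset.Nonempty.cons_induction with
  | singleton i =>
    simp only [Finset.prod_singleton, Finset.card_singleton, mul_one]
    exact H i (Finset.mem_singleton_self i)
  | cons i S hi hS ih =>
    have h1 := H i (Finset.mem_cons_self i S)
    have h2 := ih fun j hj => H j (Finset.mem_cons_of_mem hj)
    have h3 := h1.mul h2
    have e : k * (Finset.cons i S hi).card = k + k * S.card := by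
      rw [Finset.card_cons]; ring
    rw [e]
    have e2 : (fun s : ℂ => ∏ j ∈ Finset.cons i S hi, F j s) = fun s => F i s * ∏ j ∈ S, F j s := by
      funext s
      rw [Finset.prod_cons]
    rw [e2]
    exact h3

/-- **The criterion for `Nice` L-functions.** -/
theorem nice_iff {k : ℕ} {F : ℂ → ℂ} (h : Nice k F) {b : ℕ → ℂ} (hb : ∀ s : ℂ, 1 < s.re → LSeriesSummable b s ∧ F s * LSeries b s = 1) :
    (∀ s : ℂ, -1 / 2 < s.re → F s = 0 → s.re = 1 / 2) ↔
      ∃ C : ℝ, ∀ x : ℝ, 3 ≤ x → ‖∑ n ∈ Finset.Icc 1 ⌊x⌋₊, b n‖ ≤ Real.sqrt x * Real.exp (C * Qk k x) := by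
  obtain ⟨⟨A, lc, F', a, a', b0, H⟩, hs⟩ := h
  have H' : LL k 0 A lc F F' F a a' b :=
    { H with
      sb := fun s h1 => (hb s h1).1
      hb := fun s h1 => (hb s h1).2 }
  rw [← engine H']
  constructor
  · intro h s h1 h0
    have := h s (by linarith) h0
    linarith
  · intro h s h1 h0
    by_contra hne
    rcases lt_or_gt_of_ne hne with h2 | h2
    · refine h (1 - (starRingEnd ℂ) s) ?_ (hs s h1 (by linarith) h0)
      rw [Complex.sub_re, Complex.conj_re, Complex.one_re]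
      linarith
    · exact h s h2 h0

section twists

variable {N : ℕ} [NeZero N]

lemma GG_ne {q : ℕ} [NeZero q] {s : ℂ} (hs : -1 / 2 < s.re) : W388.GG 2 N q s ≠ 0 := by
  unfold W388.GG
  have hN : (0 : ℝ) < N := by exact_mod_cast Nat.pos_of_ne_zero (NeZero.ne N)
  have hq : (0 : ℝ) < q := by exact_mod_cast Nat.pos_of_ne_zero (NeZero.ne q)
  refine mul_ne_zero ?_ (Complex.Gamma_ne_zero_of_re_pos ?_)
  · rw [Ne, Complex.cpow_eq_zero_iff]
    intro h
    have h1 : (Real.sqrt N * q / (2 * Real.pi) : ℝ) ≠ 0 := by positivity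
    exact h1 (by exact_mod_cast h.1)
  · simp only [Complex.add_re]
    have : ((((2 : ℤ) : ℂ) - 1) / 2).re = 1 / 2 := by norm_num
    rw [this]
    linarith

lemma GG_cont {q : ℕ} [NeZero q] : ContinuousOn (W388.GG 2 N q) {s : ℂ | -1 / 2 < s.re} := by
  unfold W388.GG
  have hN : (0 : ℝ) < N := by exact_mod_cast Nat.pos_of_ne_zero (NeZero.ne N)
  have hq : (0 : ℝ) < q := by exact_mod_cast Nat.pos_of_ne_zero (NeZero.ne q)
  have h1 : (Real.sqrt N * q / (2 * Real.pi) : ℝ) ≠ 0 := by positivity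
  refine ContinuousOn.mul ?_ ?_
  · refine Continuous.continuousOn (Continuous.const_cpow continuous_id (Or.inl ?_))
    exact_mod_cast h1
  · intro s hs
    have h2 : 0 < (s + (((2 : ℤ) : ℂ) - 1) / 2).re := by
      rw [Set.mem_setOf_eq] at hs
      rw [Complex.add_re]
      have : ((((2 : ℤ) : ℂ) - 1) / 2).re = 1 / 2 := by norm_num
      rw [this]
      linarith
    have h3 : DifferentiableAt ℂ Complex.Gamma (s + (((2 : ℤ) : ℂ) - 1) / 2) := by
      refine Complex.differentiableAt_Gamma _ fun m hm => ?_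
      rw [hm] at h2
      simp only [Complex.neg_re, Complex.natCast_re] at h2
      have : (0 : ℝ) ≤ m := Nat.cast_nonneg m
      linarith
    exact (ContinuousAt.comp (f := fun s : ℂ => s + (((2 : ℤ) : ℂ) - 1) / 2) h3.continuousAt (by fun_prop)).continuousWithinAt

lemma fe_real {q : ℕ} [NeZero q] {F : ℂ → ℂ} (h : W388.FE2 2 N q F) : ∃ w : ℂ, ‖w‖ = 1 ∧ ∀ s : ℂ, -1 / 2 < s.re → s.re < 3 / 2 →
    W388.GG 2 N q s * F s = w * (starRingEnd ℂ) (W388.GG 2 N q (1 - (starRingEnd ℂ) s) * F (1 - (starRingEnd ℂ) s)) := by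
  obtain ⟨w, hw, hfe⟩ := h.fe
  refine ⟨w, hw, fun s h1 h2 => ?_⟩
  by_cases h0 : s.im = 0
  · -- continuity along `s + i t`
    have hF := h.diff.continuous
    have hop : IsOpen {s : ℂ | -1 / 2 < s.re} := isOpen_lt continuous_const Complex.continuous_re
    have c1 : ContinuousAt (fun t : ℝ => W388.GG 2 N q (s + t * I) * F (s + t * I)) 0 := by
      refine ContinuousAt.mul ?_ (hF.comp (by fun_prop)).continuousAt
      refine ContinuousAt.comp (f := fun t : ℝ => s + t * I) (g := W388.GG 2 N q) ?_ (by fun_prop)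
      exact GG_cont.continuousAt (hop.mem_nhds (by simpa using h1))
    have c2 : ContinuousAt (fun t : ℝ => w * (starRingEnd ℂ) (W388.GG 2 N q (1 - (starRingEnd ℂ) (s + t * I)) *
        F (1 - (starRingEnd ℂ) (s + t * I)))) 0 := by
      refine ContinuousAt.mul continuousAt_const ?_
      refine (Complex.continuous_conj.continuousAt).comp ?_
      have c3 : Continuous fun t : ℝ => 1 - (starRingEnd ℂ) (s + t * I) := by
        refine continuous_const.sub (Complex.continuous_conj.comp (by fun_prop))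
      refine ContinuousAt.mul ?_ (hF.comp c3).continuousAt
      refine ContinuousAt.comp (f := fun t : ℝ => 1 - (starRingEnd ℂ) (s + t * I)) (g := W388.GG 2 N q) ?_ c3.continuousAt
      refine GG_cont.continuousAt (hop.mem_nhds ?_)
      simp only [Complex.ofReal_zero, zero_mul, add_zero, Set.mem_setOf_eq, Complex.sub_re, Complex.one_re, Complex.conj_re]
      linarith
    have hev : ∀ᶠ t : ℝ in nhdsWithin 0 {0}ᶜ, W388.GG 2 N q (s + t * I) * F (s + t * I) =
        w * (starRingEnd ℂ) (W388.GG 2 N q (1 - (starRingEnd ℂ) (s + t * I)) * F (1 - (starRingEnd ℂ) (s + t * I))) := by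
      filter_upwards [self_mem_nhdsWithin] with t ht
      refine hfe _ ?_
      have : (s + t * I).im = t := by simp [h0]
      rw [this]
      exact ht
    have t1 := c1.tendsto.mono_left (nhdsWithin_le_nhds (s := {0}ᶜ))
    have t2 := c2.tendsto.mono_left (nhdsWithin_le_nhds (s := {0}ᶜ))
    have := tendsto_nhds_unique (t1.congr' hev) t2
    simpa using this
  · exact hfe s h0

theorem nice_tw (f : CuspForm (Gamma0 N : Subgroup (GL (Fin 2) ℝ)) 2) {w : ℝ} (hf : Pool.Agent.W169.HF.IsForm N f w)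
    {q : ℕ} [NeZero q] (χ : DirichletCharacter ℂ q) (hχ : χ.IsPrimitive) (hq : Nat.Coprime q N) :
    ∃ F : ℂ → ℂ, Differentiable ℂ F ∧ Nice 2 F ∧
      (∀ s : ℂ, 1 < s.re → LSeriesSummable (fun n : ℕ => χ (n : ZMod q) * (W388.lamf f n : ℂ)) s) ∧
      (∀ s : ℂ, 1 < s.re → F s = LSeries (fun n : ℕ => χ (n : ZMod q) * (W388.lamf f n : ℂ)) s) ∧
      ∃ b : ℕ → ℂ, IsInv (fun n : ℕ => χ (n : ZMod q) * (W388.lamf f n : ℂ)) b ∧
        ∀ s : ℂ, 1 < s.re → LSeriesSummable b s ∧ F s * LSeries b s = 1 := by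
  obtain ⟨A, lc, F, F', a, a', b, H, hfe, hinv, hsum, hser⟩ := tw_all N f w hf q χ hχ hq
  refine ⟨F, H.ent, ⟨⟨A, lc, F', a, a', b, H⟩, fun s h1 h2 h3 => ?_⟩, hsum, hser, b, hinv, fun s hs => ⟨H.sb s hs, H.hb s hs⟩⟩
  obtain ⟨w', hw', hfe'⟩ := fe_real (N := N) hfe
  have h4 := hfe' s h1 h2
  rw [h3, mul_zero] at h4
  have hw0 : w' ≠ 0 := by
    intro h
    rw [h, norm_zero] at hw'
    norm_num at hw'
  have h5 := (mul_eq_zero.1 h4.symm).resolve_left hw0
  rw [map_eq_zero] at h5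
  refine (mul_eq_zero.1 h5).resolve_left (GG_ne ?_)
  rw [Complex.sub_re, Complex.one_re, Complex.conj_re]
  linarith

end twists

end Pool.Agent.N964.GX
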