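import Mathlib
import Pool.Agent.N964.GX.EK

set_option autoImplicit false

/-!
# Project GX: elliptic curves in the arithmetic normalisation
-/

namespace Pool.Agent.N964.GX

open Complex MeasureTheory

lemma inv_unique {lam b b' : ℕ → ℂ} (h1 : lam 1 = 1) (hb : IsInv lam b) (hb' : IsInv lam b') : ∀ n : ℕ, 1 ≤ n → b n = b' n := by
  intro n
  induction n using Nat.strong_induction_on with
  | _ n ih =>
    intro hn
    have e1 := hb n hn
    have e2 := hb' n hn
    have h1m : 1 ∈ n.divisors := Nat.one_mem_divisors.2 (by omega)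
    rw [← Finset.add_sum_erase _ _ h1m] at e1 e2
    rw [h1, one_mul, Nat.div_one] at e1 e2
    have e3 : ∑ d ∈ n.divisors.erase 1, lam d * b (n / d) = ∑ d ∈ n.divisors.erase 1, lam d * b' (n / d) := by
      refine Finset.sum_congr rfl fun d hd => ?_
      rw [Finset.mem_erase, Nat.mem_divisors] at hd
      obtain ⟨hd1, hd2, hd3⟩ := hd
      have hd0 : 0 < d := Nat.pos_of_dvd_of_pos hd2 (by omega)
      rw [ih (n / d) (Nat.div_lt_self (by omega) (by omega)) (Nat.div_pos (Nat.le_of_dvd (by omega) hd2) hd0)]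
    rw [e3] at e1
    exact add_right_cancel (e1.trans e2.symm)

lemma sqrt_cpow (n : ℕ) : ((Real.sqrt n : ℝ) : ℂ) = (n : ℂ) ^ (1 / 2 : ℂ) := by
  rw [Real.sqrt_eq_rpow, Complex.ofReal_cpow (Nat.cast_nonneg n)]
  push_cast
  rfl

lemma term_shift (c : ℕ → ℂ) (s : ℂ) (n : ℕ) (hn : n ≠ 0) :
    LSeries.term (fun n : ℕ => c n / ((Real.sqrt n : ℝ) : ℂ)) (s - 1 / 2) n = c n * (n : ℂ) ^ (-s) := by
  rw [LSeries.term_of_ne_zero hn, sqrt_cpow]
  have hn0 : (n : ℂ) ≠ 0 := by exact_mod_cast hn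
  rw [Complex.cpow_sub _ _ hn0, Complex.cpow_neg]
  have h1 : (n : ℂ) ^ (1 / 2 : ℂ) ≠ 0 := by
    rw [Ne, Complex.cpow_eq_zero_iff]
    exact fun h => hn0 h.1
  have h2 : (n : ℂ) ^ s ≠ 0 := by
    rw [Ne, Complex.cpow_eq_zero_iff]
    exact fun h => hn0 h.1
  field_simp

lemma series_shift (c : ℕ → ℂ) (s : ℂ) :
    LSeries (fun n : ℕ => c n / ((Real.sqrt n : ℝ) : ℂ)) (s - 1 / 2) = ∑' n : ℕ, c (n + 1) * ((n + 1 : ℕ) : ℂ) ^ (-s) := by
  unfold LSeries
  have hinj : Function.Injective (fun n : ℕ => n + 1) := fun a b h => by simpa using h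
  rw [← hinj.tsum_eq (f := fun n => LSeries.term (fun n : ℕ => c n / ((Real.sqrt n : ℝ) : ℂ)) (s - 1 / 2) n)]
  · refine tsum_congr fun n => ?_
    exact term_shift c s (n + 1) (by omega)
  · intro n hn
    rw [Function.mem_support] at hn
    rcases Nat.eq_zero_or_pos n with h | h
    · rw [h, LSeries.term_zero] at hn
      exact absurd rfl hn
    · exact ⟨n - 1, by simp; omega⟩

lemma summable_shift (c : ℕ → ℂ) (s : ℂ) :
    LSeriesSummable (fun n : ℕ => c n / ((Real.sqrt n : ℝ) : ℂ)) (s - 1 / 2) ↔ Summable (fun n : ℕ => c (n + 1) * ((n + 1 : ℕ) : ℂ) ^ (-s)) := by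
  unfold LSeriesSummable
  have hinj : Function.Injective (fun n : ℕ => n + 1) := fun a b h => by simpa using h
  rw [← hinj.summable_iff (f := fun n => LSeries.term (fun n : ℕ => c n / ((Real.sqrt n : ℝ) : ℂ)) (s - 1 / 2) n)]
  · refine summable_congr fun n => ?_
    exact term_shift c s (n + 1) (by omega)
  · intro n hn
    rcases Nat.eq_zero_or_pos n with h | h
    · rw [h]; exact LSeries.term_zero _ _
    · exact absurd ⟨n - 1, by simp; omega⟩ hn

lemma lamf_eq {N : ℕ} {f : CuspForm (CongruenceSubgroup.Gamma0 N : Subgroup (GL (Fin 2) ℝ)) 2}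
    (hr : ∀ n, ((UpperHalfPlane.qExpansion 1 f).coeff n).im = 0) (n : ℕ) :
    (W388.lamf f n : ℂ) = (UpperHalfPlane.qExpansion 1 f).coeff n / ((Real.sqrt n : ℝ) : ℂ) := by
  unfold W388.lamf
  have e : ((((2 : ℤ) : ℝ) - 1) / 2) = 1 / 2 := by norm_num
  rw [e, ← Real.sqrt_eq_rpow, Complex.ofReal_div]
  congr 1
  apply Complex.ext
  · simp
  · simp [hr n]

end Pool.Agent.N964.GX
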