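import Mathlib
import Pool.Agent.N964.GX.EK2

set_option autoImplicit false

/-!
# Project GX: elliptic curves over abelian number fields
-/

namespace Pool.Agent.N964.GX

open Complex MeasureTheory
open UpperHalfPlane hiding I
open MatrixGroups CongruenceSubgroup

theorem nice_ab {N : ℕ} [NeZero N] (f : CuspForm (Gamma0 N : Subgroup (GL (Fin 2) ℝ)) 2) {w : ℝ}
    (hf : Pool.Agent.W169.HF.IsForm N f w) {M : ℕ} [NeZero M] (G : Subgroup (DirichletCharacter ℂ M)) [Fintype G]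
    (hco : Nat.Coprime M N) :
    ∃ F : ℂ → ℂ, Differentiable ℂ F ∧ Nice (2 * Fintype.card G) F ∧
      (∀ s : ℂ, 1 < s.re → F s = ∏ χ : G, LSeries (fun n : ℕ => (χ : DirichletCharacter ℂ M).primitiveCharacter (n : ZMod _) *
        (W388.lamf f n : ℂ)) s) := by
  have key : ∀ χ : G, ∃ F : ℂ → ℂ, Differentiable ℂ F ∧ Nice 2 F ∧
      (∀ s : ℂ, 1 < s.re → F s = LSeries (fun n : ℕ => (χ : DirichletCharacter ℂ M).primitiveCharacter (n : ZMod _) *
        (W388.lamf f n : ℂ)) s) := by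
    intro χ
    have hd : (χ : DirichletCharacter ℂ M).conductor ∣ M := (χ : DirichletCharacter ℂ M).conductor_dvd_level
    haveI : NeZero (χ : DirichletCharacter ℂ M).conductor := ⟨fun h => NeZero.ne M (by
      rw [h] at hd
      exact Nat.eq_zero_of_zero_dvd hd)⟩
    obtain ⟨F, h1, h2, -, h4, -⟩ := nice_tw f hf (χ : DirichletCharacter ℂ M).primitiveCharacter
      ((χ : DirichletCharacter ℂ M).primitiveCharacter_isPrimitive) (Nat.Coprime.coprime_dvd_left hd hco)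
    exact ⟨F, h1, h2, h4⟩
  choose F h1 h2 h3 using key
  refine ⟨fun s => ∏ χ : G, F χ s, ?_, ?_, ?_⟩
  · intro s
    exact DifferentiableAt.fun_finsetProd fun χ _ => (h1 χ) s
  · have := Nice.prod (Finset.univ : Finset G) ⟨1, Finset.mem_univ _⟩ 2 F (fun χ _ => h2 χ)
    rw [Finset.card_univ] at this
    exact this
  · intro s hs
    exact Finset.prod_congr rfl fun χ _ => h3 χ s hs

/-- in the normalisation with critical line `1` -/
lemma nice_shift {k : ℕ} {F : ℂ → ℂ} (h : Nice k F) {μ : ℕ → ℂ}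
    (hμ : ∀ s : ℂ, 3 / 2 < s.re → Summable (fun n : ℕ => μ (n + 1) * ((n + 1 : ℕ) : ℂ) ^ (-s)) ∧
      F (s - 1 / 2) * ∑' n : ℕ, μ (n + 1) * ((n + 1 : ℕ) : ℂ) ^ (-s) = 1) :
    (∀ s : ℂ, 0 < s.re → F (s - 1 / 2) = 0 → s.re = 1) ↔
      ∃ C : ℝ, ∀ x : ℝ, 3 ≤ x → ‖∑ n ∈ Finset.Icc 1 ⌊x⌋₊, μ n / ((Real.sqrt n : ℝ) : ℂ)‖ ≤
        Real.sqrt x * Real.exp (C * Qk k x) := by
  have e : ((1 / 2 : ℂ)).re = 1 / 2 := by norm_num
  have hb : ∀ s : ℂ, 1 < s.re → LSeriesSummable (fun n => μ n / ((Real.sqrt n : ℝ) : ℂ)) s ∧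
      F s * LSeries (fun n => μ n / ((Real.sqrt n : ℝ) : ℂ)) s = 1 := by
    intro s hs
    have h1 := hμ (s + 1 / 2) (by rw [Complex.add_re, e]; linarith)
    rw [← summable_shift, ← series_shift, add_sub_cancel_right] at h1
    exact h1
  rw [← nice_iff h hb]
  constructor
  · intro h s hs h0
    have := h (s + 1 / 2) (by rw [Complex.add_re, e]; linarith) (by simpa using h0)
    rw [Complex.add_re, e] at this
    linarith
  · intro h s hs h0
    have := h (s - 1 / 2) (by rw [Complex.sub_re, e]; linarith) h0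
    rw [Complex.sub_re, e] at this
    linarith

/-- existence of the inverse -/
lemma nice_inv {k : ℕ} {F : ℂ → ℂ} (h : Nice k F) : ∃ μ : ℕ → ℂ,
    ∀ s : ℂ, 3 / 2 < s.re → Summable (fun n : ℕ => μ (n + 1) * ((n + 1 : ℕ) : ℂ) ^ (-s)) ∧
      F (s - 1 / 2) * ∑' n : ℕ, μ (n + 1) * ((n + 1 : ℕ) : ℂ) ^ (-s) = 1 := by
  obtain ⟨⟨A, lc, F', a, a', b, H⟩, -⟩ := h
  have e : ((1 / 2 : ℂ)).re = 1 / 2 := by norm_num
  refine ⟨fun n => ((Real.sqrt n : ℝ) : ℂ) * b n, fun s hs => ?_⟩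
  have hs1 : 1 < (s - 1 / 2).re := by
    rw [Complex.sub_re, e]
    linarith
  have e2 : ∀ {n : ℕ}, n ≠ 0 → (fun n : ℕ => (((Real.sqrt n : ℝ) : ℂ) * b n) / ((Real.sqrt n : ℝ) : ℂ)) n = b n := by
    intro n hn
    have : 0 < Real.sqrt n := Real.sqrt_pos.2 (by exact_mod_cast Nat.pos_of_ne_zero hn)
    have h0 : ((Real.sqrt n : ℝ) : ℂ) ≠ 0 := by exact_mod_cast this.ne'
    show (((Real.sqrt n : ℝ) : ℂ) * b n) / ((Real.sqrt n : ℝ) : ℂ) = b n
    field_simp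
  rw [← summable_shift (fun n => ((Real.sqrt n : ℝ) : ℂ) * b n) s, ← series_shift (fun n => ((Real.sqrt n : ℝ) : ℂ) * b n) s,
    LSeriesSummable_congr _ (fun {n} hn => e2 hn), LSeries_congr (fun {n} hn => e2 hn)]
  exact ⟨H.sb _ hs1, H.hb _ hs1⟩

end Pool.Agent.N964.GX
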