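import Mathlib
import Pool.Agent.N964.GX.EK2
import Pool.Agent.N814.GXRAY
import Pool.Agent.N784.AD.Rel
import Pool.Agent.N344.GX.MU

set_option autoImplicit false

/-!
# Project GX: ray class characters of number fields
-/

namespace Pool.Agent.N964.GX

open Complex MeasureTheory NumberField

theorem ray_all : S_ray := Pool.Agent.N814.GXR.ray_of Pool.Agent.N935.GXInv.inv Pool.Agent.N935.GXInv.invex

variable {K : Type} [Field K] [NumberField K]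

theorem nice_ray {𝔣 : Ideal (𝓞 K)} {ψ : Ideal (𝓞 K) →*₀ ℂ} (h𝔣 : 𝔣 ≠ ⊤) (hψ : Pool.Agent.Y773.G.IsPrimChar K 𝔣 ψ) :
    ∃ F : ℂ → ℂ, Differentiable ℂ F ∧
      (∀ s : ℂ, 1 < s.re → HasProd (fun 𝔭 : {𝔭 : Ideal (𝓞 K) // Prime 𝔭} =>
        (1 - ψ 𝔭 * ((Ideal.absNorm (𝔭 : Ideal (𝓞 K)) : ℕ) : ℂ) ^ (-s))⁻¹) (F s)) ∧
      (∀ (k : Type) [Field k] [NumberField k] [Algebra k K] (s : ℂ), 1 < s.re →
        HasProd (fun 𝔭 : {𝔭 : Ideal (𝓞 k) // Prime 𝔭} =>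
          (Pool.Agent.N784.AD.HPk k ψ 𝔭.1 (((Ideal.absNorm (𝔭 : Ideal (𝓞 k)) : ℕ) : ℂ) ^ (-s)))⁻¹) (F s)) ∧
      (∀ s : ℂ, 1 < s.re → LSeriesSummable (coI ψ) s ∧ F s = LSeries (coI ψ) s) ∧
      ∀ b : ℕ → ℂ, IsInv (coI ψ) b →
        (∀ s : ℂ, 1 < s.re → LSeriesSummable b s ∧ F s * LSeries b s = 1) ∧
        ((∀ s : ℂ, 0 < s.re → s.re < 1 → F s = 0 → s.re = 1 / 2) ↔
          ∃ C : ℝ, ∀ x : ℝ, 3 ≤ x → ‖∑ n ∈ Finset.Icc 1 ⌊x⌋₊, b n‖ ≤
            Real.sqrt x * Real.exp (C * Qk (Module.finrank ℚ K) x)) := by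
  have hn := hψ.norm_le_one Pool.Agent.Y772.G.t_sig
  obtain ⟨A, lc, F, F', a, a', b0, H, hLI, hsum, hser, hinv, hnz, hsym⟩ := ray_all K 𝔣 ψ h𝔣 hψ
  have hlam1 : coI ψ 1 = 1 := by
    unfold coI
    have e : {𝔞 : Ideal (𝓞 K) | Ideal.absNorm 𝔞 = 1} = {⊤} := by
      ext 𝔞
      simp [Ideal.absNorm_eq_one_iff]
    rw [e, finsum_mem_singleton, ← Ideal.one_eq_top, map_one]
  refine ⟨F, H.ent, ?_, ?_, fun s hs => ⟨hsum s hs, hser s hs⟩, fun b hb => ?_⟩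
  · intro s hs
    have h1 := (Pool.Agent.Y773.hasSum_log hn hs).cexp
    rw [← Pool.Agent.Y772.DK.LI_eq_exp ψ hn hs, ← hLI s hs] at h1
    refine h1.congr_fun fun 𝔭 => ?_
    have hz := Pool.Agent.Y773.norm_zz_lt hn hs 𝔭.2
    have hne : 1 - Pool.Agent.Y773.zz ψ s 𝔭.1 ≠ 0 := by
      intro h0
      have h5 : Pool.Agent.Y773.zz ψ s 𝔭.1 = 1 := (sub_eq_zero.mp h0).symm
      rw [h5, norm_one] at hz
      exact lt_irrefl _ hz
    change _ = Complex.exp (-Complex.log (1 - Pool.Agent.Y773.zz ψ s 𝔭.1))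
    rw [Complex.exp_neg, Complex.exp_log hne]
    rfl
  · intro k _ _ _ s hs
    rw [hLI s hs]
    exact Pool.Agent.N784.AD.hasProd_rel k hn hs
  · have heq := inv_unique hlam1 hb hinv
    have e1 : ∀ {n : ℕ}, n ≠ 0 → b n = b0 n := fun {n} hn => heq n (by omega)
    have hb' : ∀ s : ℂ, 1 < s.re → LSeriesSummable b s ∧ F s * LSeries b s = 1 := by
      intro s hs
      rw [LSeriesSummable_congr s (fun {n} hn => e1 hn), LSeries_congr (fun {n} hn => e1 hn) s]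
      exact ⟨H.sb s hs, H.hb s hs⟩
    refine ⟨hb', ?_⟩
    have H' : LL (Module.finrank ℚ K) 0 A lc F F' F a a' b :=
      { H with
        sb := fun s h1 => (hb' s h1).1
        hb := fun s h1 => (hb' s h1).2 }
    rw [← engine H']
    constructor
    · intro h s h1 h0
      rcases lt_or_ge s.re 1 with h2 | h2
      · have := h s (by linarith) h2 h0
        linarith
      · exact hnz s h2 h0
    · intro h s h1 h2 h0
      by_contra hne
      rcases lt_or_gt_of_ne hne with h3 | h3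
      · refine h (1 - (starRingEnd ℂ) s) ?_ (hsym s h1 h2 h0)
        rw [Complex.sub_re, Complex.conj_re, Complex.one_re]
        linarith
      · exact h s h3 h0

end Pool.Agent.N964.GX
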