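import Mathlib
import Pool.Agent.N964.GX.Stm4
import Pool.Agent.R362.HkCls

set_option autoImplicit false

/-!
# Project GX: unramified ray class characters, the trivial one included (statements)
-/

namespace Pool.Agent.N964.GX

open Complex MeasureTheory NumberField
open Pool.Agent.W354 (LogC)
open Y767.WH (GoodH)
open Pool.Agent.R362.HL (IsRay rayPole)

/-- `F` is `L(s, ψ)`, `E = (s - 1)^r F` is entire -/
structure IsLF {K : Type} [Field K] [NumberField K] (ψ : Ideal (𝓞 K) →*₀ ℂ) (E F : ℂ → ℂ) : Prop where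
  ent : Differentiable ℂ E
  hE : ∀ s : ℂ, s ≠ 1 → E s = (s - 1) ^ rayPole ψ * F s
  eq : ∀ s : ℂ, 1 < s.re → F s = Pool.Agent.Y773.LI ψ s

/-- GX/Q4a: continuation, growth, functional equation -/
def S_fe1 : Prop := ∀ (K : Type) [Field K] [NumberField K] (e : InfinitePlace K → ℕ) (ψ : Ideal (𝓞 K) →*₀ ℂ),
  IsRay ⊤ e ψ → ∃ (A : ℝ) (E F : ℂ → ℂ), 1 ≤ A ∧ IsLF ψ E F ∧
    (∀ s : ℂ, (1 / 16 : ℝ) ≤ s.re → s.re ≤ 4 → 1 ≤ s.im → ‖F s‖ ≤ A * s.im ^ A) ∧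
    ((∀ s : ℂ, 1 ≤ s.re → 1 ≤ s.im → F s ≠ 0) → ∀ s : ℂ, s.re ≤ 0 → 1 ≤ s.im → F s ≠ 0) ∧
    (∀ s : ℂ, 0 < s.re → s.re < 1 → 1 ≤ s.im → analyticOrderAt F (1 - (starRingEnd ℂ) s) = analyticOrderAt F s) ∧
    (∀ s : ℂ, -3 / 4 ≤ s.re → s.re ≤ 1 / 2 → 1 ≤ s.im → F s ≠ 0 →
      ‖deriv F s / F s + ((Module.finrank ℚ K * Real.log s.im : ℝ) : ℂ) +
        (starRingEnd ℂ) (deriv F (1 - (starRingEnd ℂ) s) / F (1 - (starRingEnd ℂ) s))‖ ≤ A) ∧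
    ∀ s : ℂ, 0 < s.re → s.re < 1 → F s = 0 → F (1 - (starRingEnd ℂ) s) = 0

/-- GX/Q4b: no zeros on the line `Re s = 1` -/
def S_nv1 : Prop := ∀ (K : Type) [Field K] [NumberField K] (e : InfinitePlace K → ℕ) (ψ : Ideal (𝓞 K) →*₀ ℂ),
  IsRay ⊤ e ψ → ∀ E F : ℂ → ℂ, IsLF ψ E F → ∀ s : ℂ, s.re = 1 → E s ≠ 0

/-- GX/Q4c: an unramified character has a signature -/
def S_sig1 : Prop := ∀ (K : Type) [Field K] [NumberField K] (ψ : Ideal (𝓞 K) →*₀ ℂ),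
  Pool.Agent.Y773.G.IsPrimChar K ⊤ ψ → ∃ e : InfinitePlace K → ℕ, IsRay ⊤ e ψ

/-- GX/Q4: unramified ray class characters of a number field -/
def S_ray1 : Prop := ∀ (K : Type) [Field K] [NumberField K] (ψ : Ideal (𝓞 K) →*₀ ℂ),
  Pool.Agent.Y773.G.IsPrimChar K ⊤ ψ →
  ∃ (A : ℝ) (lc : ℝ → ℝ) (F F' E : ℂ → ℂ) (a a' b : ℕ → ℂ), LL (Module.finrank ℚ K) (rayPole ψ) A lc F F' E a a' b ∧
    IsLF ψ E F ∧
    (∀ s : ℂ, 1 < s.re → LSeriesSummable (coI ψ) s) ∧ (∀ s : ℂ, 1 < s.re → F s = LSeries (coI ψ) s) ∧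
    IsInv (coI ψ) b ∧ (∀ s : ℂ, 1 ≤ s.re → E s ≠ 0) ∧
    ∀ s : ℂ, 0 < s.re → s.re < 1 → F s = 0 → F (1 - (starRingEnd ℂ) s) = 0

end Pool.Agent.N964.GX
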