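import Mathlib
import Pool.Agent.N964.GX.Stm5
import Pool.Agent.N814.GXRAY

set_option autoImplicit false
set_option linter.unusedSectionVars false

/-!
# Project GX: unramified ray class characters (assembly)
-/

namespace Pool.Agent.N964.GX

open Complex MeasureTheory NumberField Filter Topology
open Pool.Agent.W354 (LogC)
open Y767.WH (GoodH)
open Pool.Agent.R362.HL (IsRay rayPole)
open Pool.Agent.Y773 (LI cc)
open Pool.Agent.N814.GXR (cj cj_apply cj_prim LI_cj coI_one coI_hasSum logC_of)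

lemma goodH_congr {d A : ℝ} {lc : ℝ → ℝ} {F G : ℂ → ℂ} {a : ℕ → ℂ} (h : GoodH d A lc F a)
    (e : ∀ s : ℂ, 0 < s.im → G s = F s) : GoodH d A lc G a := by
  have hev : ∀ s : ℂ, 0 < s.im → G =ᶠ[𝓝 s] F := by
    intro s hs
    have h6 : {z : ℂ | 0 < z.im} ∈ 𝓝 s := (isOpen_lt continuous_const Complex.continuous_im).mem_nhds hs
    filter_upwards [h6] with z hz
    exact e z hz
  have him : ∀ s : ℂ, (1 - (starRingEnd ℂ) s).im = s.im := by
    intro s
    simp
  refine ⟨fun s hs => (h.an s hs).congr (hev s hs).symm, fun s h1 h2 h3 => ?_, fun t ht => ?_, fun s h1 h2 => ?_,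
    fun s h1 h2 => ?_, fun s h1 h2 h3 => ?_, h.ha1, h.has, h.ha, fun s h1 h2 => ?_, fun s h1 h2 h3 h4 => ?_⟩
  · rw [e s (by linarith)]
    exact h.growth s h1 h2 h3
  · rw [e _ (show 0 < ((⟨2, t⟩ : ℂ)).im by show 0 < t; linarith)]
    exact h.lower t ht
  · rw [e s (by linarith)]
    exact h.nzr s h1 h2
  · rw [e s (by linarith)]
    exact h.nzl s h1 h2
  · rw [analyticOrderAt_congr (hev s (by linarith)),
      analyticOrderAt_congr (hev (1 - (starRingEnd ℂ) s) (by rw [him]; linarith))]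
    exact h.symm s h1 h2 h3
  · rw [e s (by linarith), (hev s (by linarith)).deriv_eq]
    exact h.ld s h1 h2
  · rw [e s (by linarith)] at h4
    rw [e s (by linarith), (hev s (by linarith)).deriv_eq, e (1 - (starRingEnd ℂ) s) (by rw [him]; linarith),
      (hev (1 - (starRingEnd ℂ) s) (by rw [him]; linarith)).deriv_eq]
    exact h.left s h1 h2 h3 h4

variable {K : Type} [Field K] [NumberField K]

lemma cj_ray {e : InfinitePlace K → ℕ} {ψ : Ideal (𝓞 K) →*₀ ℂ} (h : IsRay ⊤ e ψ) : IsRay ⊤ e (cj ψ) where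
  ne_bot := h.ne_bot
  sig_le := h.sig_le
  cpx := h.cpx
  supp 𝔞 h𝔞 := by
    rw [cj_apply, ← h.supp 𝔞 h𝔞]
    exact not_congr (map_eq_zero _)
  sig x h0 h1 := by
    rw [cj_apply, h.sig x h0 h1]
    unfold Pool.Agent.R362.HL.signs
    rw [map_prod]
    refine Finset.prod_congr rfl fun w _ => ?_
    rw [map_pow, map_intCast]
  prim 𝔤 h1 h2 := by
    obtain ⟨x, a, b, c, d⟩ := h.prim 𝔤 h1 h2
    refine ⟨x, a, b, c, fun hh => d ?_⟩
    rw [cj_apply] at hh
    have := congrArg (starRingEnd ℂ) hh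
    rwa [starRingEnd_self_apply, map_one] at this

lemma cj_pole (ψ : Ideal (𝓞 K) →*₀ ℂ) : rayPole (cj ψ) = rayPole ψ := by
  unfold Pool.Agent.R362.HL.rayPole
  have : (∀ 𝔞 : Ideal (𝓞 K), 𝔞 ≠ ⊥ → cj ψ 𝔞 = 1) ↔ ∀ 𝔞 : Ideal (𝓞 K), 𝔞 ≠ ⊥ → ψ 𝔞 = 1 := by
    refine forall_congr' fun 𝔞 => imp_congr_right fun _ => ?_
    rw [cj_apply]
    constructor
    · intro hh
      have := congrArg (starRingEnd ℂ) hh
      rwa [starRingEnd_self_apply, map_one] at this
    · intro hh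
      rw [hh, map_one]
  by_cases h : ∀ 𝔞 : Ideal (𝓞 K), 𝔞 ≠ ⊥ → ψ 𝔞 = 1
  · rw [if_pos h, if_pos (this.2 h)]
  · rw [if_neg h, if_neg (fun h' => h (this.1 h'))]

lemma IsLF.off {ψ : Ideal (𝓞 K) →*₀ ℂ} {E F : ℂ → ℂ} (h : IsLF ψ E F) {s : ℂ} (hs : s ≠ 1) : F s = E s / (s - 1) ^ rayPole ψ := by
  have : (s - 1) ^ rayPole ψ ≠ 0 := pow_ne_zero _ (sub_ne_zero.2 hs)
  rw [h.hE s hs, mul_div_cancel_left₀ _ this]

lemma IsLF.an {ψ : Ideal (𝓞 K) →*₀ ℂ} {E F : ℂ → ℂ} (h : IsLF ψ E F) {s : ℂ} (hs : s ≠ 1) : AnalyticAt ℂ F s := by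
  have h1 : F =ᶠ[𝓝 s] fun z => E z / (z - 1) ^ rayPole ψ := by
    filter_upwards [isOpen_ne.mem_nhds hs] with z hz
    exact h.off hz
  refine AnalyticAt.congr ?_ h1.symm
  exact (h.ent.analyticAt s).div (by fun_prop) (pow_ne_zero _ (sub_ne_zero.2 hs))

/-- uniqueness -/
lemma IsLF.uniq {ψ : Ideal (𝓞 K) →*₀ ℂ} {E F E' F' : ℂ → ℂ} (h : IsLF ψ E F) (h' : IsLF ψ E' F') : E = E' := by
  have h3 : E =ᶠ[nhds (3 : ℂ)] E' := by
    have hmem : {s : ℂ | 1 < s.re} ∈ nhds (3 : ℂ) := by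
      refine (isOpen_lt continuous_const Complex.continuous_re).mem_nhds ?_
      show (1 : ℝ) < ((3 : ℂ)).re
      rw [show ((3 : ℂ)).re = 3 by norm_num]
      norm_num
    filter_upwards [hmem] with z hz
    have hz1 : z ≠ 1 := fun hh => by
      rw [hh] at hz
      have hz' : (1 : ℝ) < (1 : ℂ).re := hz
      rw [Complex.one_re] at hz'
      exact lt_irrefl _ hz'
    rw [h.hE z hz1, h'.hE z hz1, h.eq z hz, h'.eq z hz]
  have h1 : AnalyticOnNhd ℂ E Set.univ := fun z _ => h.ent.analyticAt z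
  have h2 : AnalyticOnNhd ℂ E' Set.univ := fun z _ => h'.ent.analyticAt z
  funext s
  exact h1.eqOn_of_preconnected_of_eventuallyEq h2 isPreconnected_univ (Set.mem_univ _) h3 (Set.mem_univ s)

lemma ne_one_of_im {s : ℂ} (h : 0 < s.im) : s ≠ 1 := fun hh => by
  rw [hh] at h
  simp at h

/-- the properties of one function -/
lemma goodK (h3 : S_fe1) (h4 : S_nv1) {e : InfinitePlace K → ℕ} {ψ : Ideal (𝓞 K) →*₀ ℂ} (h : IsRay ⊤ e ψ) :
    ∃ (A : ℝ) (E F : ℂ → ℂ), 1 ≤ A ∧ IsLF ψ E F ∧ (∀ s : ℂ, 1 ≤ s.re → E s ≠ 0) ∧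
      (∀ A' : ℝ, A ≤ A' → GoodH (Module.finrank ℚ K) A' (fun t => Real.log (1 * t)) F
        (fun m => cc ψ m * (ArithmeticFunction.vonMangoldt m : ℂ))) ∧
      (∀ n : ℕ, ‖cc ψ n * (ArithmeticFunction.vonMangoldt n : ℂ)‖ ≤
        (Module.finrank ℚ K : ℝ) * ArithmeticFunction.vonMangoldt n) ∧
      ∀ s : ℂ, 0 < s.re → s.re < 1 → F s = 0 → F (1 - (starRingEnd ℂ) s) = 0 := by
  obtain ⟨hψ1, -⟩ := h.xi
  obtain ⟨A₀, hA₀, hD⟩ := Pool.Agent.Y772.DK.t_dirK K
  obtain ⟨d1, d2, d3, d4, d5, d6, d7, -, d8, d9, -⟩ := hD ψ hψ1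
  obtain ⟨A₁, E, F, hA₁, hLF, g1, g2, g3, g4, g5⟩ := h3 K e ψ h
  have hnv : ∀ s : ℂ, 1 ≤ s.re → E s ≠ 0 := by
    intro s hs
    rcases lt_or_eq_of_le hs with h5 | h5
    · have hs1 : s ≠ 1 := fun hh => by
        rw [hh] at h5
        simp at h5
      rw [hLF.hE s hs1, hLF.eq s h5]
      exact mul_ne_zero (pow_ne_zero _ (sub_ne_zero.2 hs1)) (d3 s h5)
    · exact h4 K e ψ h E F hLF s h5.symm
  have hnz : ∀ s : ℂ, 1 ≤ s.re → 1 ≤ s.im → F s ≠ 0 := by
    intro s h5 h6 h7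
    have := hLF.hE s (ne_one_of_im (by linarith))
    rw [h7, mul_zero] at this
    exact hnv s h5 this
  have hle : ∀ m : ℕ, ‖(cc ψ m * (ArithmeticFunction.vonMangoldt m : ℂ))‖ *
      (m : ℝ) ^ (-(7 / 4) : ℝ) ≤
      ArithmeticFunction.vonMangoldt m * ‖cc ψ m‖ * (m : ℝ) ^ (-(3 / 2) : ℝ) := by
    intro m
    rcases Nat.eq_zero_or_pos m with rfl | hm
    · simp
    rw [norm_mul, Complex.norm_real,
      Real.norm_of_nonneg ArithmeticFunction.vonMangoldt_nonneg, mul_comm ‖cc ψ m‖]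
    refine mul_le_mul_of_nonneg_left ?_
      (mul_nonneg ArithmeticFunction.vonMangoldt_nonneg (norm_nonneg _))
    exact Real.rpow_le_rpow_of_exponent_le (by exact_mod_cast hm) (by norm_num)
  refine ⟨max A₀ A₁, E, F, le_max_of_le_left hA₀, hLF, hnv, fun A' hA' => ?_, fun n => ?_, g5⟩
  · have hA0' : A₀ ≤ A' := (le_max_left _ _).trans hA'
    have hA1' : A₁ ≤ A' := (le_max_right _ _).trans hA'
    refine ⟨fun s hs => hLF.an (ne_one_of_im hs), ?_, ?_, hnz, g2 hnz, g3, ?_, ?_, ?_, ?_, ?_⟩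
    · intro s h5 h6 h7
      refine (g1 s h5 h6 h7).trans ?_
      have hpos : 0 < s.im := by linarith
      rw [one_mul, mul_comm A' (Real.log s.im), ← Real.rpow_def_of_pos hpos]
      exact mul_le_mul hA1' (Real.rpow_le_rpow_of_exponent_le h7 hA1') (by positivity) (by linarith)
    · intro t _
      have h5 : (1 : ℝ) < ((⟨2, t⟩ : ℂ)).re := by norm_num
      rw [hLF.eq _ h5]
      refine le_trans ?_ (d6 _ (by norm_num))
      exact inv_anti₀ (by linarith) hA0'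
    · intro m hm
      have : ArithmeticFunction.vonMangoldt m = 0 := by
        interval_cases m <;> simp
      rw [this]; simp
    · exact Summable.of_nonneg_of_le (fun m => by positivity) hle d8
    · exact (Summable.tsum_le_tsum hle (Summable.of_nonneg_of_le (fun m => by positivity) hle d8)
        d8).trans (d9.trans hA0')
    · intro s h5 h6
      have h7 : deriv F s = deriv (LI ψ) s := by
        refine Filter.EventuallyEq.deriv_eq ?_
        have h8 : {z : ℂ | 1 < z.re} ∈ 𝓝 s :=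
          (isOpen_lt continuous_const Complex.continuous_re).mem_nhds h5
        filter_upwards [h8] with z hz
        exact hLF.eq z hz
      rw [h7, hLF.eq _ h5, d4 _ h5]
    · intro s h5 h6 h7 h8
      rw [one_mul]
      exact (g4 s h5 h6 h7 h8).trans hA1'
  · rw [norm_mul, Complex.norm_real, Real.norm_of_nonneg ArithmeticFunction.vonMangoldt_nonneg]
    exact mul_le_mul_of_nonneg_right (d7 n) ArithmeticFunction.vonMangoldt_nonneg

/-- GX/Q4 -/
theorem ray1_of (h1 : S_inv) (h2 : S_invex) (h3 : S_fe1) (h4 : S_nv1) (h5 : S_sig1) : S_ray1 := by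
  intro K _ _ ψ hprim
  obtain ⟨e, h⟩ := h5 K ψ hprim
  have hfr : 1 ≤ Module.finrank ℚ K := Module.finrank_pos (R := ℚ) (M := K)
  obtain ⟨A1, E, F, hA1, hLF, hnv, hg, hram, hsym⟩ := goodK h3 h4 h
  obtain ⟨A2, E2, F2, hA2, hLF2, hnv2, hg2, hram2, -⟩ := goodK h3 h4 (cj_ray h)
  obtain ⟨hψ1, -⟩ := h.xi
  obtain ⟨A₀, hA₀, hD⟩ := Pool.Agent.Y772.DK.t_dirK K
  obtain ⟨d1, -⟩ := hD ψ hψ1
  -- the conjugate
  have hEc : ∀ s : ℂ, E2 s = (starRingEnd ℂ) (E ((starRingEnd ℂ) s)) := by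
    have hd : Differentiable ℂ fun s => (starRingEnd ℂ) (E ((starRingEnd ℂ) s)) := by
      intro s
      have h3 := (hLF.ent ((starRingEnd ℂ) s)).conj_conj
      rw [starRingEnd_self_apply] at h3
      exact h3
    have hL : IsLF (cj ψ) (fun s => (starRingEnd ℂ) (E ((starRingEnd ℂ) s))) (fun s => (starRingEnd ℂ) (F ((starRingEnd ℂ) s))) := by
      refine ⟨hd, fun s hs => ?_, fun s hs => ?_⟩
      · have hs' : (starRingEnd ℂ) s ≠ 1 := fun hh => hs (by
          have := congrArg (starRingEnd ℂ) hh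
          rwa [starRingEnd_self_apply, map_one] at this)
        show (starRingEnd ℂ) (E ((starRingEnd ℂ) s)) = _ * (starRingEnd ℂ) (F ((starRingEnd ℂ) s))
        rw [hLF.hE _ hs', map_mul, map_pow, map_sub, map_one, starRingEnd_self_apply, cj_pole]
      · show (starRingEnd ℂ) (F ((starRingEnd ℂ) s)) = _
        rw [LI_cj, hLF.eq _ (by rw [Complex.conj_re]; exact hs)]
    intro s
    exact congrFun (hLF2.uniq hL) s
  have hFc : ∀ s : ℂ, 0 < s.im → (starRingEnd ℂ) (F ((starRingEnd ℂ) s)) = F2 s := by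
    intro s hs
    have hs1 := ne_one_of_im hs
    have hs' : (starRingEnd ℂ) s ≠ 1 := fun hh => hs1 (by
      have := congrArg (starRingEnd ℂ) hh
      rwa [starRingEnd_self_apply, map_one] at this)
    rw [hLF2.off hs1, hEc, hLF.off hs', map_div₀, map_pow, map_sub, map_one, starRingEnd_self_apply, cj_pole]
  have hH1 := hg (max A1 A2) (le_max_left _ _)
  have hH2 := goodH_congr (hg2 (max A1 A2) (le_max_right _ _)) hFc
  -- the Dirichlet series
  have hsum : ∀ s : ℂ, 1 < s.re → HasSum (LSeries.term (coI ψ) s) (LI ψ s) :=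
    fun s hs => coI_hasSum ψ (d1 s hs)
  have hls : ∀ s : ℂ, 1 < s.re → LSeriesSummable (coI ψ) s := fun s hs => (hsum s hs).summable
  have hle : ∀ s : ℂ, 1 < s.re → F s = LSeries (coI ψ) s := by
    intro s hs
    rw [hLF.eq s hs]
    exact (hsum s hs).tsum_eq.symm
  obtain ⟨b, -, hb⟩ := h2 (coI ψ) (coI_one ψ)
  obtain ⟨hb1, hb2⟩ := h1 (Module.finrank ℚ K) (max A1 A2) (fun t => Real.log (1 * t)) F
    (fun m => cc ψ m * (ArithmeticFunction.vonMangoldt m : ℂ)) (coI ψ) b hfr hH1 hram (coI_one ψ)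
    hls hle hb
  refine ⟨max A1 A2, fun t => Real.log (1 * t), F, fun s => (starRingEnd ℂ) (F ((starRingEnd ℂ) s)), E,
    fun m => cc ψ m * (ArithmeticFunction.vonMangoldt m : ℂ),
    fun m => cc (cj ψ) m * (ArithmeticFunction.vonMangoldt m : ℂ), b, ?_, hLF, hls, hle, hb, hnv, hsym⟩
  exact
    { hk := hfr
      hA := le_max_of_le_left hA1
      hlc := logC_of le_rfl
      good := hH1
      good' := hH2
      ram := hram
      ram' := hram2
      hconj := fun s => rfl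
      ent := hLF.ent
      hE := hLF.hE
      h1 := Or.inr (hnv 1 (by simp))
      sb := hb1
      hb := hb2 }

end Pool.Agent.N964.GX
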