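import Mathlib
import Pool.Agent.N964.GX.EK4
import Pool.Agent.N964.GX.EK5

set_option autoImplicit false

/-!
# Project GX: all primitive ray class characters of number fields
-/

namespace Pool.Agent.N964.GX

open Complex MeasureTheory NumberField
open Pool.Agent.R362.HL (IsRay rayPole)

variable {K : Type} [Field K] [NumberField K]

lemma rayPole_zero {ψ : Ideal (𝓞 K) →*₀ ℂ} (h : ∃ 𝔞 : Ideal (𝓞 K), 𝔞 ≠ ⊥ ∧ ψ 𝔞 ≠ 1) : rayPole ψ = 0 := by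
  unfold Pool.Agent.R362.HL.rayPole
  rw [if_neg]
  intro h1
  obtain ⟨𝔞, h2, h3⟩ := h
  exact h3 (h1 𝔞 h2)

theorem nice_ray_all (h1 : S_ray1) {𝔣 : Ideal (𝓞 K)} {ψ : Ideal (𝓞 K) →*₀ ℂ} (hψ : Pool.Agent.Y773.G.IsPrimChar K 𝔣 ψ) :
    ∃ F : ℂ → ℂ, (∀ s : ℂ, s ≠ 1 → DifferentiableAt ℂ F s) ∧
      ((∃ 𝔞 : Ideal (𝓞 K), 𝔞 ≠ ⊥ ∧ ψ 𝔞 ≠ 1) → Differentiable ℂ F) ∧
      (∀ s : ℂ, 1 < s.re → HasProd (fun 𝔭 : {𝔭 : Ideal (𝓞 K) // Prime 𝔭} =>
        (1 - ψ 𝔭 * ((Ideal.absNorm (𝔭 : Ideal (𝓞 K)) : ℕ) : ℂ) ^ (-s))⁻¹) (F s)) ∧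
      (∀ (k : Type) [Field k] [NumberField k] [Algebra k K] (s : ℂ), 1 < s.re →
        HasProd (fun 𝔭 : {𝔭 : Ideal (𝓞 k) // Prime 𝔭} =>
          (Pool.Agent.N784.AD.HPk k ψ 𝔭.1 (((Ideal.absNorm (𝔭 : Ideal (𝓞 k)) : ℕ) : ℂ) ^ (-s)))⁻¹) (F s)) ∧
      (∀ s : ℂ, 1 < s.re → LSeriesSummable (coI ψ) s ∧ F s = LSeries (coI ψ) s) ∧
      ∀ b : ℕ → ℂ, IsInv (coI ψ) b →
        (∀ s : ℂ, 1 < s.re → LSeriesSummable b s ∧ F s * LSeries b s = 1) ∧
        ((∀ s : ℂ, 0 < s.re → s.re < 1 → F s = 0 → s.re = 1 / 2) ↔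
          ∃ C : ℝ, ∀ x : ℝ, 3 ≤ x → ‖∑ n ∈ Finset.Icc 1 ⌊x⌋₊, b n‖ ≤
            Real.sqrt x * Real.exp (C * Qk (Module.finrank ℚ K) x)) := by
  by_cases h𝔣 : 𝔣 = ⊤
  swap
  · obtain ⟨F, g1, g2, g3, g4, g5⟩ := nice_ray h𝔣 hψ
    exact ⟨F, fun s _ => g1 s, fun _ => g1, g2, g3, g4, g5⟩
  subst h𝔣
  obtain ⟨A, lc, F, F', E, a, a', b0, H, hLF, hls, hle, hinv, hnz, hsym⟩ := h1 K ψ hψ
  have hn : ∀ 𝔞, ‖ψ 𝔞‖ ≤ 1 := hψ.norm_le_one Pool.Agent.Y772.G.t_sig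
  -- the function
  obtain ⟨G, hG⟩ : ∃ G : ℂ → ℂ, G = fun s => if rayPole ψ = 0 then E s else F s := ⟨_, rfl⟩
  have hGF : ∀ s : ℂ, s ≠ 1 → G s = F s := by
    intro s hs
    rw [hG]
    show (if rayPole ψ = 0 then E s else F s) = F s
    split_ifs with h0
    · rw [hLF.hE s hs, h0, pow_zero, one_mul]
    · rfl
  have hne : ∀ s : ℂ, 1 < s.re → s ≠ 1 := fun s hs hh => by
    rw [hh, Complex.one_re] at hs
    exact lt_irrefl _ hs
  have hGL : ∀ s : ℂ, 1 < s.re → G s = Pool.Agent.Y773.LI ψ s := fun s hs => by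
    rw [hGF s (hne s hs), hLF.eq s hs]
  have hlam1 : coI ψ 1 = 1 := Pool.Agent.N814.GXR.coI_one ψ
  refine ⟨G, fun s hs => ?_, fun hnt => ?_, ?_, ?_, fun s hs => ⟨hls s hs, ?_⟩, fun b hb => ?_⟩
  · refine (hLF.an hs).differentiableAt.congr_of_eventuallyEq ?_
    filter_upwards [isOpen_ne.mem_nhds hs] with z hz
    exact hGF z hz
  · have : G = E := by
      rw [hG]
      funext s
      rw [if_pos (rayPole_zero hnt)]
    rw [this]
    exact hLF.ent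
  · intro s hs
    have h1 := (Pool.Agent.Y773.hasSum_log hn hs).cexp
    rw [← Pool.Agent.Y772.DK.LI_eq_exp ψ hn hs, ← hGL s hs] at h1
    refine h1.congr_fun fun 𝔭 => ?_
    have hz := Pool.Agent.Y773.norm_zz_lt hn hs 𝔭.2
    have hne : 1 - Pool.Agent.Y773.zz ψ s 𝔭.1 ≠ 0 := by
      intro h0
      have h5 : Pool.Agent.Y773.zz ψ s 𝔭.1 = 1 := (sub_eq_zero.mp h0).symm
      rw [h5, norm_one] at hz
      exact lt_irrefl _ hz
    change _ = Complex.exp (-Complex.log (1 - Pool.Agent.Y773.zz ψ s 𝔭.1))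
    rw [Complex.exp_neg, Complex.exp_log hne]
    rfl
  · intro k _ _ _ s hs
    rw [hGL s hs]
    exact Pool.Agent.N784.AD.hasProd_rel k hn hs
  · rw [hGF s (hne s hs)]
    exact hle s hs
  · have heq := inv_unique hlam1 hb hinv
    have e1 : ∀ {n : ℕ}, n ≠ 0 → b n = b0 n := fun {n} hn => heq n (by omega)
    have hb' : ∀ s : ℂ, 1 < s.re → LSeriesSummable b s ∧ F s * LSeries b s = 1 := by
      intro s hs
      rw [LSeriesSummable_congr s (fun {n} hn => e1 hn), LSeries_congr (fun {n} hn => e1 hn) s]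
      exact ⟨H.sb s hs, H.hb s hs⟩
    refine ⟨fun s hs => ?_, ?_⟩
    · rw [hGF s (hne s hs)]
      exact hb' s hs
    have H' : LL (Module.finrank ℚ K) (rayPole ψ) A lc F F' E a a' b :=
      { H with
        sb := fun s h1 => (hb' s h1).1
        hb := fun s h1 => (hb' s h1).2 }
    rw [← engine H']
    have hs1 : ∀ s : ℂ, s.re < 1 → s ≠ 1 := fun s h hh => by
      rw [hh, Complex.one_re] at h
      exact lt_irrefl _ h
    constructor
    · intro h s h1 h0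
      rcases lt_or_ge s.re 1 with h2 | h2
      · rw [hLF.hE s (hs1 s h2)] at h0
        have h3 : F s = 0 := (mul_eq_zero.1 h0).resolve_left (pow_ne_zero _ (sub_ne_zero.2 (hs1 s h2)))
        have := h s (by linarith) h2 (by rw [hGF s (hs1 s h2)]; exact h3)
        linarith
      · exact hnz s h2 h0
    · intro h s h1 h2 h0
      rw [hGF s (hs1 s h2)] at h0
      by_contra hne
      rcases lt_or_gt_of_ne hne with h3 | h3
      · have h4 := hsym s h1 h2 h0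
        have h5 : (1 - (starRingEnd ℂ) s).re = 1 - s.re := by
          rw [Complex.sub_re, Complex.conj_re, Complex.one_re]
        refine h (1 - (starRingEnd ℂ) s) (by rw [h5]; linarith) ?_
        rw [hLF.hE _ (hs1 _ (by rw [h5]; linarith)), h4, mul_zero]
      · exact h s h3 (by rw [hLF.hE s (hs1 s h2), h0, mul_zero])

end Pool.Agent.N964.GX
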