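import Mathlib
import Pool.Agent.N964.GX.EK6
import Pool.Agent.N558.GXFEO
import Pool.Agent.N40.GXnv

set_option autoImplicit false

/-!
# Project GX: all primitive ray class characters of number fields, assembly
-/

namespace Pool.Agent.N964.GX

open Complex MeasureTheory NumberField

theorem ray1_all : S_ray1 := ray1_of Pool.Agent.N935.GXInv.inv Pool.Agent.N935.GXInv.invex
  Pool.Agent.N558.GXF.fe1 Pool.Agent.N40.GX.nv1 Pool.Agent.N40.GX.sig1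

variable {K : Type} [Field K] [NumberField K]

theorem nice_ray_any {𝔣 : Ideal (𝓞 K)} {ψ : Ideal (𝓞 K) →*₀ ℂ} (hψ : Pool.Agent.Y773.G.IsPrimChar K 𝔣 ψ) :
    ∃ F : ℂ → ℂ, (∀ s : ℂ, s ≠ 1 → DifferentiableAt ℂ F s) ∧
      ((∃ 𝔞 : Ideal (𝓞 K), 𝔞 ≠ ⊥ ∧ ψ 𝔞 ≠ 1) → Differentiable ℂ F) ∧
      (∀ s : ℂ, 1 < s.re → HasProd (fun 𝔭 : {𝔭 : Ideal (𝓞 K) // Prime 𝔭} =>
        (1 - ψ 𝔭 * ((Ideal.absNorm (𝔭 : Ideal (𝓞 K)) : ℕ) : ℂ) ^ (-s))⁻¹) (F s)) ∧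
      (∀ (k : Type) [Field k] [NumberField k] [Algebra k K] (s : ℂ), 1 < s.re →
        HasProd (fun 𝔭 : {𝔭 : Ideal (𝓞 k) // Prime 𝔭} =>
          (Pool.Agent.N784.AD.HPk k ψ 𝔭.1 (((Ideal.absNorm (𝔭 : Ideal (𝓞 k)) : ℕ) : ℂ) ^ (-s)))⁻¹) (F s)) ∧
      (∀ s : ℂ, 1 < s.re → LSeriesSummable (coI ψ) s ∧ F s = LSeries (coI ψ) s) ∧
      ∀ b : ℕ → ℂ, IsInv (coI ψ) b →
        (∀ s : ℂ, 1 < s.re → LSeriesSummable b s ∧ F s * LSeries b s = 1) ∧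
        ((∀ s : ℂ, 0 < s.re → s.re < 1 → F s = 0 → s.re = 1 / 2) ↔
          ∃ C : ℝ, ∀ x : ℝ, 3 ≤ x → ‖∑ n ∈ Finset.Icc 1 ⌊x⌋₊, b n‖ ≤
            Real.sqrt x * Real.exp (C * Qk (Module.finrank ℚ K) x)) :=
  nice_ray_all ray1_all hψ

end Pool.Agent.N964.GX
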